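import Mathlib

/-!
# A sufficient condition for universal BPBp-ASE domains

Finite-dimensional spaces with property `PropQ` are universal BPBp-ASE domains (after the paper
proof of helper968).
-/

set_option autoImplicit false

open Filter Topology

namespace Pool.Agent.H34.BPB

universe u v w

section Defs

variable {𝕜 : Type w} [RCLike 𝕜] {X : Type u} {Y : Type v} [NormedAddCommGroup X]
  [NormedSpace 𝕜 X] [NormedAddCommGroup Y] [NormedSpace 𝕜 Y]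

/-- `T` is absolutely strongly exposing. -/
def IsASE (T : X →L[𝕜] Y) : Prop :=
  ∃ x₀ : X, ‖x₀‖ = 1 ∧ ∀ x : ℕ → X, (∀ n, ‖x n‖ ≤ 1) →
    Tendsto (fun n => ‖T (x n)‖) atTop (𝓝 ‖T‖) →
    ∃ (σ : ℕ → ℕ) (c : 𝕜), StrictMono σ ∧ ‖c‖ = 1 ∧
      Tendsto (fun n => x (σ n)) atTop (𝓝 (c • x₀))

variable (𝕜 X Y)

/-- the pair `(X, Y)` has the BPBp-ASE -/
def BPBpASE : Prop :=
  ∀ ε : ℝ, 0 < ε → ∃ η : ℝ, 0 < η ∧ η < ε ∧
    ∀ T : X →L[𝕜] Y, ‖T‖ = 1 → ∀ x : X, ‖x‖ = 1 → 1 - η < ‖T x‖ →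
      ∃ (S : X →L[𝕜] Y) (x₀ : X), IsASE S ∧ ‖x₀‖ = 1 ∧ ‖S‖ = 1 ∧ ‖S x₀‖ = 1 ∧
        ‖S - T‖ < ε ∧ ‖x - x₀‖ < ε

/-- the sufficient condition -/
def PropQ : Prop :=
  ∀ (x : X) (g : X →L[𝕜] 𝕜), ‖x‖ = 1 → ‖g‖ ≤ 1 → g x = 1 → ∀ ε : ℝ, 0 < ε →
    ∃ (v : X) (h : X →L[𝕜] 𝕜) (κ : ℝ), ‖v‖ ≤ 1 ∧ ‖h‖ ≤ 1 ∧ h v = 1 ∧ 0 < κ ∧ κ < ε ∧
      1 - κ ≤ ‖g v‖ ∧
      ∀ y : X, ‖y‖ ≤ 1 → 1 - κ / ε ≤ ‖h y‖ → ∃ c : 𝕜, ‖c‖ = 1 ∧ ‖y - c • x‖ < ε

end Defs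

section General

variable {𝕜 : Type w} [RCLike 𝕜]

/-- a unit scalar which rotates `a` to the nonnegative reals -/
theorem exists_rot (a : 𝕜) : ∃ c : 𝕜, ‖c‖ = 1 ∧ c * a = ((‖a‖ : ℝ) : 𝕜) := by
  by_cases ha : a = 0
  · exact ⟨1, norm_one, by simp [ha]⟩
  · have hn : ‖a‖ ≠ 0 := norm_ne_zero_iff.2 ha
    refine ⟨(starRingEnd 𝕜 a) * ((‖a‖⁻¹ : ℝ) : 𝕜), ?_, ?_⟩
    · rw [norm_mul, RCLike.norm_conj, RCLike.norm_ofReal, abs_of_nonneg (by positivity)]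
      field_simp
    · have h1 : (starRingEnd 𝕜 a) * ((‖a‖⁻¹ : ℝ) : 𝕜) * a =
          (starRingEnd 𝕜 a * a) * ((‖a‖⁻¹ : ℝ) : 𝕜) := by ring
      rw [h1, RCLike.conj_mul]
      have hn' : ((‖a‖ : ℝ) : 𝕜) ≠ 0 := by exact_mod_cast hn
      push_cast
      field_simp

theorem conj_mul_self {c : 𝕜} (hc : ‖c‖ = 1) : (starRingEnd 𝕜 c) * c = 1 := by
  rw [RCLike.conj_mul, hc]
  simp

variable {X : Type u} [NormedAddCommGroup X] [NormedSpace 𝕜 X]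

theorem norm_le_of_ball {Z : Type v} [NormedAddCommGroup Z] [NormedSpace 𝕜 Z] (S : X →L[𝕜] Z)
    (M : ℝ) (hM : 0 ≤ M) (h : ∀ y, ‖y‖ ≤ 1 → ‖S y‖ ≤ M) : ‖S‖ ≤ M := by
  refine S.opNorm_le_bound hM fun y => ?_
  by_cases hy : y = 0
  · simp [hy]
  · have hn : 0 < ‖y‖ := norm_pos_iff.2 hy
    have h1 := h (((‖y‖⁻¹ : ℝ) : 𝕜) • y) (by
      rw [norm_smul, RCLike.norm_ofReal, abs_of_nonneg (by positivity)]
      rw [inv_mul_cancel₀ hn.ne'])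
    rw [map_smul, norm_smul, RCLike.norm_ofReal, abs_of_nonneg (by positivity)] at h1
    rw [inv_mul_le_iff₀ hn] at h1
    linarith

/-- The perturbation of one operator. -/
theorem core [FiniteDimensional 𝕜 X] {Z : Type v} [NormedAddCommGroup Z] [NormedSpace 𝕜 Z]
    (ε κ : ℝ) (hε : 0 < ε) (hε1 : ε ≤ 1 / 20) (hκ : 0 < κ) (hκε : κ < ε) (x v : X)
    (h : X →L[𝕜] 𝕜) (hv : ‖v‖ ≤ 1) (hh : ‖h‖ ≤ 1) (hhv : h v = 1)
    (slice : ∀ y : X, ‖y‖ ≤ 1 → 1 - κ / ε ≤ ‖h y‖ → ∃ c : 𝕜, ‖c‖ = 1 ∧ ‖y - c • x‖ < ε)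
    (T : X →L[𝕜] Z) (hT : ‖T‖ = 1) (hTv : 1 - 2 * κ ≤ ‖T v‖) :
    ∃ (S : X →L[𝕜] Z) (x₀ : X), IsASE S ∧ ‖x₀‖ = 1 ∧ ‖S‖ = 1 ∧ ‖S x₀‖ = 1 ∧
      ‖S - T‖ ≤ 25 * ε ∧ ‖x₀ - x‖ < ε := by
  have hprop : ProperSpace X := FiniteDimensional.proper_rclike 𝕜 X
  let J : X ≃L[𝕜] EuclideanSpace 𝕜 (Fin (Module.finrank 𝕜 X)) :=
    ContinuousLinearEquiv.ofFinrankEq (by simp)
  set R : ℝ := ‖(J : X →L[𝕜] EuclideanSpace 𝕜 (Fin (Module.finrank 𝕜 X)))‖ + 1 with hR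
  have hR0 : 0 < R := by positivity
  have hJ : ∀ y : X, ‖y‖ ≤ 1 → ‖J y‖ ≤ R := by
    intro y hy
    have h1 := (J : X →L[𝕜] EuclideanSpace 𝕜 (Fin (Module.finrank 𝕜 X))).le_opNorm y
    have h2 : ‖(J : X →L[𝕜] EuclideanSpace 𝕜 (Fin (Module.finrank 𝕜 X)))‖ * ‖y‖ ≤
        ‖(J : X →L[𝕜] EuclideanSpace 𝕜 (Fin (Module.finrank 𝕜 X)))‖ * 1 :=
      mul_le_mul_of_nonneg_left hy (norm_nonneg _)
    have h3 : ‖J y‖ = ‖(J : X →L[𝕜] EuclideanSpace 𝕜 (Fin (Module.finrank 𝕜 X))) y‖ := rfl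
    rw [h3, hR]
    linarith
  set μ : ℝ := κ / (2 * R ^ 2) with hμ
  have hμ0 : 0 < μ := by positivity
  have hμR : 2 * μ * R ^ 2 = κ := by rw [hμ]; field_simp
  set ρ : ℝ := 10 * ε with hρ
  have hρ0 : 0 < ρ := by positivity
  have hρ1 : ρ ≤ 1 / 2 := by rw [hρ]; linarith
  set S₁ : X →L[𝕜] Z := T + ((ρ : ℝ) : 𝕜) • h.smulRight (T v) with hS1
  have hS1a : ∀ y, S₁ y = T y + ((ρ : ℝ) : 𝕜) • (h y • T v) := fun y => by
    simp [hS1]
  have hTle : ∀ y, ‖y‖ ≤ 1 → ‖T y‖ ≤ 1 := by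
    intro y hy
    have := T.le_opNorm y
    rw [hT, one_mul] at this
    linarith
  have hφ : ∀ y, ‖y‖ ≤ 1 → ‖S₁ y‖ ≤ 1 + ρ * ‖h y‖ := by
    intro y hy
    rw [hS1a]
    refine (norm_add_le _ _).trans ?_
    rw [norm_smul, norm_smul, RCLike.norm_ofReal, abs_of_pos hρ0]
    have h1 := hTle y hy
    have h2 := hTle v hv
    have h3 : ‖h y‖ * ‖T v‖ ≤ ‖h y‖ * 1 := mul_le_mul_of_nonneg_left h2 (norm_nonneg _)
    have h4 := mul_le_mul_of_nonneg_left h3 hρ0.le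
    linarith
  have hφv : (1 + ρ) * (1 - 2 * κ) ≤ ‖S₁ v‖ := by
    have h1 : S₁ v = ((1 + ρ : ℝ) : 𝕜) • T v := by
      rw [hS1a, hhv, one_smul]
      push_cast
      rw [add_smul, one_smul]
    rw [h1, norm_smul, RCLike.norm_ofReal, abs_of_pos (by linarith)]
    exact mul_le_mul_of_nonneg_left hTv (by linarith)
  -- the maximiser
  obtain ⟨y0, hy0, hmax⟩ := (isCompact_closedBall (0 : X) 1).exists_isMaxOn
    ⟨0, by simp⟩ (f := fun y => ‖S₁ y‖ + μ * ‖J y‖ ^ 2) (by fun_prop)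
  have hy0' : ‖y0‖ ≤ 1 := by simpa using hy0
  have hmax' : ∀ y, ‖y‖ ≤ 1 → ‖S₁ y‖ + μ * ‖J y‖ ^ 2 ≤ ‖S₁ y0‖ + μ * ‖J y0‖ ^ 2 := by
    intro y hy
    exact hmax (by simpa using hy)
  have hJ0 : μ * ‖J y0‖ ^ 2 ≤ κ / 2 := by
    have h1 := hJ y0 hy0'
    have h2 : ‖J y0‖ ^ 2 ≤ R ^ 2 := pow_le_pow_left₀ (norm_nonneg _) h1 2
    have h3 := mul_le_mul_of_nonneg_left h2 hμ0.le
    linarith
  have hJ00 : 0 ≤ μ * ‖J y0‖ ^ 2 := by positivity
  set N0 : ℝ := ‖S₁ y0‖ with hN0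
  have hN0lo : (1 + ρ) * (1 - 2 * κ) - κ / 2 ≤ N0 := by
    have h1 := hmax' v hv
    have h2 : 0 ≤ μ * ‖J v‖ ^ 2 := by positivity
    linarith
  have hκ1 : κ < 1 / 20 := by linarith
  have hρκ : ρ * κ ≤ κ / 2 := by nlinarith
  have hN0lo' : 1 - 4 * κ ≤ N0 := by nlinarith
  have hN0pos : 0 < N0 := by linarith
  -- the functional
  set f : X →L[𝕜] 𝕜 := ((2 * μ : ℝ) : 𝕜) • (innerSL 𝕜 (J y0)).comp
    (J : X →L[𝕜] EuclideanSpace 𝕜 (Fin (Module.finrank 𝕜 X))) with hf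
  have hfa : ∀ y, f y = ((2 * μ : ℝ) : 𝕜) * inner 𝕜 (J y0) (J y) := fun y => by
    simp [hf]
  have hfy0 : f y0 = ((2 * μ * ‖J y0‖ ^ 2 : ℝ) : 𝕜) := by
    rw [hfa, inner_self_eq_norm_sq_to_K]
    push_cast
    ring
  have hfn : ∀ y, ‖y‖ ≤ 1 → ‖f y‖ ≤ κ := by
    intro y hy
    rw [hfa, norm_mul, RCLike.norm_ofReal, abs_of_pos (by linarith)]
    have h1 := norm_inner_le_norm (𝕜 := 𝕜) (J y0) (J y)
    have h2 := hJ y0 hy0'
    have h3 := hJ y hy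
    have h4 : ‖J y0‖ * ‖J y‖ ≤ R * R := mul_le_mul h2 h3 (norm_nonneg _) hR0.le
    have h5 := mul_le_mul_of_nonneg_left (h1.trans h4) (by linarith : (0 : ℝ) ≤ 2 * μ)
    calc 2 * μ * ‖inner 𝕜 (J y0) (J y)‖ ≤ 2 * μ * (R * R) := h5
      _ = κ := by rw [← hμR]; ring
  have hkey : ∀ y, ‖y‖ ≤ 1 → ‖S₁ y‖ + RCLike.re (f y) ≤
      N0 + 2 * μ * ‖J y0‖ ^ 2 - μ * ‖J y - J y0‖ ^ 2 := by
    intro y hy
    have h1 := hmax' y hy
    have h2 : ‖J y - J y0‖ ^ 2 = ‖J y‖ ^ 2 - 2 * RCLike.re (inner 𝕜 (J y) (J y0)) +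
        ‖J y0‖ ^ 2 := by
      exact norm_sub_sq (𝕜 := 𝕜) (J y) (J y0)
    have h3 : RCLike.re (f y) = 2 * μ * RCLike.re (inner 𝕜 (J y) (J y0)) := by
      rw [hfa, RCLike.re_ofReal_mul, inner_re_symm]
    rw [h3, h2]
    linarith
  -- the second perturbation
  set M : ℝ := N0 + 2 * μ * ‖J y0‖ ^ 2 with hM
  have hMpos : 0 < M := by rw [hM]; positivity
  set S₂ : X →L[𝕜] Z := S₁ + f.smulRight (((N0⁻¹ : ℝ) : 𝕜) • S₁ y0) with hS2
  have hS2a : ∀ y, S₂ y = S₁ y + f y • (((N0⁻¹ : ℝ) : 𝕜) • S₁ y0) := fun y => by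
    simp [hS2]
  have hunit : ‖((N0⁻¹ : ℝ) : 𝕜) • S₁ y0‖ = 1 := by
    rw [norm_smul, RCLike.norm_ofReal, abs_of_pos (by positivity), ← hN0]
    exact inv_mul_cancel₀ hN0pos.ne'
  have hS2le : ∀ y, ‖y‖ ≤ 1 → ∃ c : 𝕜, ‖c‖ = 1 ∧
      ‖S₂ y‖ ≤ M - μ * ‖J (c • y) - J y0‖ ^ 2 := by
    intro y hy
    obtain ⟨c, hc, hcf⟩ := exists_rot (f y)
    refine ⟨c, hc, ?_⟩
    have hcy : ‖c • y‖ ≤ 1 := by rw [norm_smul, hc, one_mul]; exact hy
    have h1 := hkey (c • y) hcy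
    rw [map_smul, map_smul, norm_smul, hc, one_mul, smul_eq_mul, hcf, RCLike.ofReal_re] at h1
    have h2 : ‖S₂ y‖ ≤ ‖S₁ y‖ + ‖f y‖ := by
      rw [hS2a]
      refine (norm_add_le _ _).trans ?_
      rw [norm_smul, hunit, mul_one]
    exact h2.trans h1
  have hS2y0 : ‖S₂ y0‖ = M := by
    have h1 : S₂ y0 = ((1 + 2 * μ * ‖J y0‖ ^ 2 * N0⁻¹ : ℝ) : 𝕜) • S₁ y0 := by
      rw [hS2a, hfy0, smul_smul]
      push_cast
      rw [add_smul, one_smul]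
    rw [h1, norm_smul, RCLike.norm_ofReal, abs_of_pos (by positivity), ← hN0, hM]
    field_simp
  have hS2n : ‖S₂‖ = M := by
    apply le_antisymm
    · refine norm_le_of_ball S₂ M hMpos.le fun y hy => ?_
      obtain ⟨c, _, h1⟩ := hS2le y hy
      have : 0 ≤ μ * ‖J (c • y) - J y0‖ ^ 2 := by positivity
      linarith
    · rw [← hS2y0]
      have := S₂.le_opNorm y0
      nlinarith [norm_nonneg S₂]
  have hy01 : ‖y0‖ = 1 := by
    apply le_antisymm hy0'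
    have := S₂.le_opNorm y0
    rw [hS2y0, hS2n] at this
    by_contra hcon
    push Not at hcon
    nlinarith
  -- `y0` is near a rotation of `x`
  obtain ⟨c, hc, hcx⟩ := slice y0 hy0' (by
    have h1 := hφ y0 hy0'
    have h2 : (1 + ρ) * (1 - 2 * κ) - κ / 2 ≤ 1 + ρ * ‖h y0‖ := hN0lo.trans h1
    have h3 : ρ * (1 - κ / ε) ≤ ρ * ‖h y0‖ := by
      have h4 : ρ * (1 - κ / ε) = ρ - 10 * κ := by rw [hρ]; field_simp
      rw [h4]
      nlinarith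
    exact le_of_mul_le_mul_left h3 hρ0)
  have hcc := conj_mul_self hc
  -- norms
  have hST : ‖S₂ - T‖ ≤ ρ + κ := by
    refine norm_le_of_ball _ _ (by linarith) fun y hy => ?_
    have h1 : (S₂ - T) y = ((ρ : ℝ) : 𝕜) • (h y • T v) + f y • (((N0⁻¹ : ℝ) : 𝕜) • S₁ y0) := by
      rw [ContinuousLinearMap.sub_apply, hS2a, hS1a]
      abel
    rw [h1]
    refine (norm_add_le _ _).trans (add_le_add ?_ ?_)
    · rw [norm_smul, norm_smul, RCLike.norm_ofReal, abs_of_pos hρ0]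
      have h2 : ‖h y‖ ≤ 1 := by
        have := h.le_opNorm y
        nlinarith [norm_nonneg y, norm_nonneg h]
      have h3 := hTle v hv
      have h4 : ‖h y‖ * ‖T v‖ ≤ 1 * 1 := mul_le_mul h2 h3 (norm_nonneg _) zero_le_one
      nlinarith
    · rw [norm_smul, hunit, mul_one]
      exact hfn y hy
  have hMup : M ≤ 1 + ρ + κ := by
    have h1 : ‖S₂‖ ≤ ‖S₂ - T‖ + ‖T‖ := by
      have := norm_add_le (S₂ - T) T
      rwa [sub_add_cancel] at this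
    rw [hS2n, hT] at h1
    linarith
  have hMlo : 1 - 4 * κ ≤ M := by rw [hM]; linarith
  have hM1 : |1 - M| ≤ ρ + 4 * κ := by
    rw [abs_le]
    constructor <;> linarith
  set S : X →L[𝕜] Z := ((M⁻¹ : ℝ) : 𝕜) • S₂ with hS
  have hSa : ∀ y, ‖S y‖ = M⁻¹ * ‖S₂ y‖ := by
    intro y
    have : S y = ((M⁻¹ : ℝ) : 𝕜) • S₂ y := rfl
    rw [this, norm_smul, RCLike.norm_ofReal, abs_of_pos (by positivity)]
  have hSn : ‖S‖ = 1 := by
    rw [hS, norm_smul, RCLike.norm_ofReal, abs_of_pos (by positivity), hS2n]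
    exact inv_mul_cancel₀ hMpos.ne'
  refine ⟨S, (starRingEnd 𝕜 c) • y0, ⟨y0, hy01, fun y hy hlim => ?_⟩, ?_, hSn, ?_, ?_, ?_⟩
  · -- ASE
    choose d hd hdle using fun n => hS2le (y n) (hy n)
    have h1 : Tendsto (fun n => ‖S₂ (y n)‖) atTop (𝓝 M) := by
      rw [hSn] at hlim
      have h2 := hlim.const_mul M
      simp only [hSa, mul_one] at h2
      refine h2.congr fun n => ?_
      field_simp
    have h2 : Tendsto (fun n => μ⁻¹ * (M - ‖S₂ (y n)‖)) atTop (𝓝 0) := by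
      have := (h1.const_sub M).const_mul μ⁻¹
      simpa using this
    have h3 : Tendsto (fun n => ‖J (d n • y n) - J y0‖ ^ 2) atTop (𝓝 0) := by
      refine squeeze_zero (fun n => by positivity) (fun n => ?_) h2
      rw [le_inv_mul_iff₀ hμ0]
      have := hdle n
      linarith
    have h4 : Tendsto (fun n => ‖J (d n • y n) - J y0‖) atTop (𝓝 0) := by
      have h5 := h3.sqrt
      simp only [Real.sqrt_zero] at h5
      refine h5.congr fun n => Real.sqrt_sq (norm_nonneg _)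
    have h5 : Tendsto (fun n => J (d n • y n)) atTop (𝓝 (J y0)) :=
      tendsto_iff_norm_sub_tendsto_zero.2 h4
    have h6 : Tendsto (fun n => d n • y n) atTop (𝓝 y0) := by
      have := (J.symm.continuous.tendsto (J y0)).comp h5
      simpa [Function.comp_def] using this
    obtain ⟨a, ha, σ, hσ, hσa⟩ := (isCompact_sphere (0 : 𝕜) 1).tendsto_subseq
      (x := d) (fun n => by simpa using hd n)
    have ha1 : ‖a‖ = 1 := by simpa using ha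
    refine ⟨σ, starRingEnd 𝕜 a, hσ, by rw [RCLike.norm_conj]; exact ha1, ?_⟩
    have h7 : Tendsto (fun n => (starRingEnd 𝕜 (d (σ n))) • (d (σ n) • y (σ n))) atTop
        (𝓝 ((starRingEnd 𝕜 a) • y0)) := by
      refine Tendsto.smul ?_ (h6.comp hσ.tendsto_atTop)
      exact (RCLike.continuous_conj.tendsto a).comp hσa
    refine h7.congr fun n => ?_
    rw [smul_smul, conj_mul_self (hd _), one_smul]
  · rw [norm_smul, RCLike.norm_conj, hc, one_mul, hy01]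
  · rw [map_smul, norm_smul, RCLike.norm_conj, hc, one_mul, hSa, hS2y0]
    exact inv_mul_cancel₀ hMpos.ne'
  · have h1 : S - T = (S - S₂) + (S₂ - T) := by abel
    have h2 : ‖S - S₂‖ = |1 - M| := by
      have h3 : S - S₂ = ((M⁻¹ - 1 : ℝ) : 𝕜) • S₂ := by
        rw [hS]
        push_cast
        rw [sub_smul, one_smul]
      rw [h3, norm_smul, RCLike.norm_ofReal, hS2n]
      have h4 : |1 - M| = |(M⁻¹ - 1) * M| := by
        congr 1
        field_simp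
      rw [h4, abs_mul, abs_of_pos hMpos]
    rw [h1]
    refine (norm_add_le _ _).trans ?_
    rw [h2]
    rw [hρ] at hM1 hST
    linarith
  · have h1 : (starRingEnd 𝕜 c) • y0 - x = (starRingEnd 𝕜 c) • (y0 - c • x) := by
      rw [smul_sub, smul_smul, hcc, one_smul]
    rw [h1, norm_smul, RCLike.norm_conj, hc, one_mul]
    exact hcx

/-- **General theorem.** -/
theorem bpbp_of_propQ [FiniteDimensional 𝕜 X] (hQ : PropQ 𝕜 X) (Z : Type v)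
    [NormedAddCommGroup Z] [NormedSpace 𝕜 Z] : BPBpASE 𝕜 X Z := by
  have hprop : ProperSpace X := FiniteDimensional.proper_rclike 𝕜 X
  have hprop2 : ProperSpace (X →L[𝕜] 𝕜) := FiniteDimensional.proper_rclike 𝕜 _
  intro ε₀ hε₀
  by_contra hcon
  push Not at hcon
  have hη : ∀ n : ℕ, 0 < min (ε₀ / 2) (1 / ((n : ℝ) + 1)) ∧
      min (ε₀ / 2) (1 / ((n : ℝ) + 1)) < ε₀ := fun n =>
    ⟨lt_min (by linarith) (by positivity), (min_le_left _ _).trans_lt (by linarith)⟩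
  choose T hT x hx hTx hno using fun n : ℕ => hcon _ (hη n).1 (hη n).2
  choose z hz1 hz2 using fun n : ℕ => exists_dual_vector'' 𝕜 (T n (x n))
  set g : ℕ → (X →L[𝕜] 𝕜) := fun n => (z n).comp (T n) with hg
  have hgn : ∀ n, ‖g n‖ ≤ 1 := by
    intro n
    refine ((z n).opNorm_comp_le (T n)).trans ?_
    rw [hT n, mul_one]
    exact hz1 n
  have hgx : ∀ n, g n (x n) = ((‖T n (x n)‖ : ℝ) : 𝕜) := fun n => hz2 n
  obtain ⟨⟨x', g'⟩, hmem, σ, hσ, hlim⟩ :=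
    ((isCompact_closedBall (0 : X) 1).prod (isCompact_closedBall (0 : X →L[𝕜] 𝕜) 1)).tendsto_subseq
      (x := fun n => (x n, g n)) (fun n => ⟨by simp [hx n], by simpa using hgn n⟩)
  have hg' : ‖g'‖ ≤ 1 := by simpa using hmem.2
  have hxl : Tendsto (fun n => x (σ n)) atTop (𝓝 x') := by
    have := (continuous_fst.tendsto (x', g')).comp hlim
    exact this
  have hgl : Tendsto (fun n => g (σ n)) atTop (𝓝 g') := by
    have := (continuous_snd.tendsto (x', g')).comp hlim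
    exact this
  have hx' : ‖x'‖ = 1 := by
    have h1 := hxl.norm
    simp only [hx] at h1
    exact (tendsto_nhds_unique h1 tendsto_const_nhds)
  have hTl : Tendsto (fun n => ‖T n (x n)‖) atTop (𝓝 1) := by
    have h1 : Tendsto (fun n : ℕ => 1 - 1 / ((n : ℝ) + 1)) atTop (𝓝 1) := by
      have := (tendsto_one_div_add_atTop_nhds_zero_nat (𝕜 := ℝ)).const_sub 1
      simpa using this
    refine tendsto_of_tendsto_of_tendsto_of_le_of_le h1 tendsto_const_nhds (fun n => ?_)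
      (fun n => ?_)
    · have h2 := hTx n
      have h3 := min_le_right (ε₀ / 2) (1 / ((n : ℝ) + 1))
      simp only at h2 ⊢
      linarith
    · have := (T n).le_opNorm (x n)
      rw [hT n, hx n, one_mul] at this
      exact this
  have hgx' : g' x' = 1 := by
    have h1 : Tendsto (fun n => g (σ n) (x (σ n))) atTop (𝓝 (g' x')) := by
      have h2 : Continuous (fun p : (X →L[𝕜] 𝕜) × X => p.1 p.2) := by fun_prop
      exact (h2.tendsto (g', x')).comp (hgl.prodMk_nhds hxl)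
    have h3 : Tendsto (fun n => g (σ n) (x (σ n))) atTop (𝓝 (((1 : ℝ)) : 𝕜)) := by
      simp only [hgx]
      exact ((RCLike.continuous_ofReal (K := 𝕜)).tendsto 1).comp (hTl.comp hσ.tendsto_atTop)
    have := tendsto_nhds_unique h1 h3
    simpa using this
  -- apply (Q)
  set ε : ℝ := min ε₀ 1 / 50 with hε
  have hm : 0 < min ε₀ 1 := lt_min hε₀ one_pos
  have hε0 : 0 < ε := by positivity
  have hε1 : ε ≤ 1 / 50 := by
    have := min_le_right ε₀ (1 : ℝ)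
    rw [hε]; linarith
  have hεε : 50 * ε ≤ ε₀ := by
    have := min_le_left ε₀ (1 : ℝ)
    rw [hε]; linarith
  obtain ⟨v, h, κ, hv, hh, hhv, hκ, hκε, hgv, hsl⟩ := hQ x' g' hx' hg' hgx' ε hε0
  have e1 : ∀ᶠ n in atTop, ‖x (σ n) - x'‖ < ε :=
    (tendsto_iff_norm_sub_tendsto_zero.1 hxl).eventually_lt_const hε0
  have e2 : ∀ᶠ n in atTop, ‖g (σ n) - g'‖ < κ :=
    (tendsto_iff_norm_sub_tendsto_zero.1 hgl).eventually_lt_const hκ
  obtain ⟨n, h1, h2⟩ := (e1.and e2).exists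
  have hTv : 1 - 2 * κ ≤ ‖T (σ n) v‖ := by
    have a1 : ‖g (σ n) v‖ ≤ ‖T (σ n) v‖ := by
      have := (z (σ n)).le_opNorm (T (σ n) v)
      have b1 : ‖z (σ n)‖ * ‖T (σ n) v‖ ≤ 1 * ‖T (σ n) v‖ :=
        mul_le_mul_of_nonneg_right (hz1 _) (norm_nonneg _)
      have b2 : g (σ n) v = z (σ n) (T (σ n) v) := rfl
      rw [b2]
      linarith
    have a2 : ‖g' v‖ ≤ ‖g (σ n) v‖ + κ := by
      have b1 : g' v = g (σ n) v - (g (σ n) - g') v := by simp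
      rw [b1]
      refine (norm_sub_le _ _).trans ?_
      have b2 := (g (σ n) - g').le_opNorm v
      have b3 : ‖g (σ n) - g'‖ * ‖v‖ ≤ κ * 1 := mul_le_mul h2.le hv (norm_nonneg _) hκ.le
      linarith
    linarith
  obtain ⟨S, x₀, c1, c2, c3, c4, c5, c6⟩ := core ε κ hε0 (by linarith) hκ hκε x' v h hv hh hhv hsl
    (T (σ n)) (hT _) hTv
  have h3 := hno (σ n) S x₀ c1 c2 c3 c4 (by linarith)
  have h4 : ‖x (σ n) - x₀‖ ≤ ‖x (σ n) - x'‖ + ‖x₀ - x'‖ := by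
    have : x (σ n) - x₀ = (x (σ n) - x') - (x₀ - x') := by abel
    rw [this]
    exact norm_sub_le _ _
  linarith

end General

end Pool.Agent.H34.BPB
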