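import Mathlib
import Pool.Agent.H34.BPB.Space

/-!
# Property `PropQ` of the three-dimensional space

After the paper proof of helper968.
-/

set_option autoImplicit false

open Filter Topology

namespace Pool.Agent.H34.BPB

universe w

variable {𝕜 : Type w} [RCLike 𝕜]

theorem le_of_sq_le_sq {a b : ℝ} (h : a ^ 2 ≤ b ^ 2) (hb : 0 ≤ b) : a ≤ b := by
  have := sq_le_sq.1 h
  exact (le_abs_self a).trans (this.trans (le_of_eq (abs_of_nonneg hb)))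

/-- parameters: `w` large -/
theorem exists_w (D η : ℝ) (hη : 0 < η) : ∃ w : ℝ, 0 < w ∧ D / w < η ∧
    Real.exp (-w) * (1 + w) < η := by
  have h1 : Tendsto (fun w : ℝ => D / w) atTop (𝓝 0) := tendsto_const_nhds.div_atTop tendsto_id
  have h2 : Tendsto (fun w : ℝ => Real.exp (-w) * (1 + w)) atTop (𝓝 0) := by
    have e1 : Tendsto (fun w : ℝ => w ^ 1 * Real.exp (-w)) atTop (𝓝 0) :=
      Real.tendsto_pow_mul_exp_neg_atTop_nhds_zero 1
    have e2 : Tendsto (fun w : ℝ => Real.exp (-w)) atTop (𝓝 0) :=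
      Real.tendsto_exp_neg_atTop_nhds_zero
    have e3 := e2.add e1
    rw [add_zero] at e3
    refine e3.congr fun w => ?_
    ring
  obtain ⟨w, hw1, hw2, hw3⟩ := ((h1.eventually_lt_const hη).and
    ((h2.eventually_lt_const hη).and (eventually_gt_atTop 0))).exists
  exact ⟨w, hw3, hw1, hw2⟩

/-- The functional of Case B. -/
noncomputable def hf (τ z₀ : 𝕜) (w : ℝ) : XX 𝕜 →ₗ[𝕜] 𝕜 where
  toFun y := (((cc ‖τ‖ w)⁻¹ : ℝ) : 𝕜) * (starRingEnd 𝕜 z₀ * y 2 +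
    ((Real.exp (-w) * (1 + w) : ℝ) : 𝕜) * y 1 +
    ((2 * Real.exp (-w) : ℝ) : 𝕜) * (starRingEnd 𝕜 τ * y 0))
  map_add' y z := by
    rw [add_co, add_co, add_co]
    ring
  map_smul' a y := by
    rw [smul_co, smul_co, smul_co, smul_eq_mul, RingHom.id_apply]
    ring

/-- Case B of property `PropQ`. -/
theorem caseB (t₀ z₀ : 𝕜) (ht₀ : ‖t₀‖ ≤ 1 / 2) (hz₀ : ‖z₀‖ = 1) (g : XX 𝕜 →L[𝕜] 𝕜)
    (hg : ∀ u, g u = starRingEnd 𝕜 z₀ * u 2) (ε : ℝ) (hε : 0 < ε) :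
    ∃ (v : XX 𝕜) (h : XX 𝕜 →L[𝕜] 𝕜) (κ : ℝ), ‖v‖ ≤ 1 ∧ ‖h‖ ≤ 1 ∧ h v = 1 ∧ 0 < κ ∧ κ < ε ∧
      1 - κ ≤ ‖g v‖ ∧
      ∀ y : XX 𝕜, ‖y‖ ≤ 1 → 1 - κ / ε ≤ ‖h y‖ → ∃ c : 𝕜, ‖c‖ = 1 ∧ ‖y - c • pt t₀ 0 z₀‖ < ε := by
  -- the parameter `τ`
  set δ : ℝ := min 1 (ε / 4) with hδ
  have hδ0 : 0 < δ := lt_min one_pos (by linarith)
  have hδ1 : δ ≤ 1 := min_le_left _ _
  have hδ2 : δ ≤ ε / 4 := min_le_right _ _
  set τ : 𝕜 := ((1 - δ : ℝ) : 𝕜) * t₀ with hτ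
  have hτn : ‖τ‖ = (1 - δ) * ‖t₀‖ := by
    rw [hτ, norm_mul, RCLike.norm_ofReal, abs_of_nonneg (by linarith)]
  have hτ2 : ‖τ‖ < 1 / 2 := by
    rw [hτn]
    have := mul_le_mul_of_nonneg_left ht₀ (by linarith : 0 ≤ 1 - δ)
    linarith
  have hτt : ‖τ - t₀‖ ≤ ε / 8 := by
    have h1 : τ - t₀ = ((-δ : ℝ) : 𝕜) * t₀ := by
      rw [hτ]; push_cast; ring
    rw [h1, norm_mul, RCLike.norm_ofReal, abs_neg, abs_of_pos hδ0]
    have := mul_le_mul hδ2 ht₀ (norm_nonneg _) (by linarith)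
    linarith
  clear_value τ δ
  have hτ0 := norm_nonneg τ
  have hτsq : ‖τ‖ ^ 2 < 1 / 4 := by
    have := pow_lt_pow_left₀ hτ2 hτ0 two_ne_zero
    have h2 : (1 / 2 : ℝ) ^ 2 = 1 / 4 := by norm_num
    rwa [h2] at this
  set D : ℝ := 2 - ‖τ‖ ^ 2 with hD
  have hDpos : 0 < D := by linarith
  -- the small parameter
  set s₁ : ℝ := ε / 4 with hs₁
  have hs₁0 : 0 < s₁ := by positivity
  set σ₀ : ℝ := min (ε ^ 2 / 64) (s₁ * Real.exp (-(2 / s₁)) / 2) with hσ₀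
  have hσ₀0 : 0 < σ₀ := lt_min (by positivity) (by positivity)
  have hσ₀1 : σ₀ ≤ ε ^ 2 / 64 := min_le_left _ _
  have hσ₀2 : σ₀ ≤ s₁ * Real.exp (-(2 / s₁)) / 2 := min_le_right _ _
  set η : ℝ := min (min (1 / 4 - ‖τ‖ ^ 2) ε) (min (ε ^ 3 / 128) (σ₀ / (4 / ε + 4))) with hη
  have hη0 : 0 < η := lt_min (lt_min (by linarith) hε) (lt_min (by positivity) (by positivity))
  have hη1 : η ≤ 1 / 4 - ‖τ‖ ^ 2 := (min_le_left _ _).trans (min_le_left _ _)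
  have hη2 : η ≤ ε := (min_le_left _ _).trans (min_le_right _ _)
  have hη3 : η ≤ ε ^ 3 / 128 := (min_le_right _ _).trans (min_le_left _ _)
  have hη4 : η ≤ σ₀ / (4 / ε + 4) := (min_le_right _ _).trans (min_le_right _ _)
  have hη4' : η * (4 / ε + 4) ≤ σ₀ := by
    rwa [le_div_iff₀ (by positivity)] at hη4
  have hη5 : η ≤ 1 / 4 := by linarith [sq_nonneg ‖τ‖]
  clear_value η σ₀ s₁ D
  obtain ⟨w, hw, hwD, hwE⟩ := exists_w D η hη0
  set E : ℝ := Real.exp (-w) with hE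
  have hE0 : 0 < E := Real.exp_pos _
  have hEη : E < η := by
    have h1 : 0 < E * w := mul_pos hE0 hw
    have h2 : E * (1 + w) = E + E * w := by ring
    linarith
  set d : ℝ := D / w with hd
  have hd0 : 0 < d := div_pos hDpos hw
  have hwd : w * d = D := by rw [hd]; field_simp
  set κ : ℝ := d * E with hκ
  have hκ0 : 0 < κ := mul_pos hd0 hE0
  have hκη : κ < η * (1 / 4) := by
    have h1 := mul_lt_mul'' hwD hEη hd0.le hE0.le
    have h2 := mul_le_mul_of_nonneg_left hη5 hη0.le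
    linarith
  have hκη' : κ < η := by linarith
  have hc1 := one_le_cc ‖τ‖ w
  have hc0 := cc_pos ‖τ‖ w
  have hccdef : cc ‖τ‖ w = 1 + E * (2 + ‖τ‖ ^ 2) := rfl
  have hc2 : cc ‖τ‖ w ≤ 2 := by
    rw [hccdef]
    have h1 : E * (2 + ‖τ‖ ^ 2) ≤ (1 / 4) * (2 + 1 / 4) :=
      mul_le_mul (by linarith) (by linarith) (by positivity) (by norm_num)
    linarith
  set h : XX 𝕜 →L[𝕜] 𝕜 := LinearMap.toContinuousLinearMap (hf τ z₀ w) with hh
  have hha : ∀ y, ((cc ‖τ‖ w : ℝ) : 𝕜) * h y = starRingEnd 𝕜 z₀ * y 2 +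
    ((E * (1 + w) : ℝ) : 𝕜) * y 1 + ((2 * E : ℝ) : 𝕜) * (starRingEnd 𝕜 τ * y 0) := by
    intro y
    have h1 : h y = (((cc ‖τ‖ w)⁻¹ : ℝ) : 𝕜) * (starRingEnd 𝕜 z₀ * y 2 +
      ((E * (1 + w) : ℝ) : 𝕜) * y 1 + ((2 * E : ℝ) : 𝕜) * (starRingEnd 𝕜 τ * y 0)) := rfl
    have h2 : ((cc ‖τ‖ w : ℝ) : 𝕜) * (((cc ‖τ‖ w)⁻¹ : ℝ) : 𝕜) = 1 := by
      rw [← RCLike.ofReal_mul, mul_inv_cancel₀ hc0.ne', RCLike.ofReal_one]
    rw [h1, ← mul_assoc, h2, one_mul]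
  clear_value h
  have hccn : ∀ y, cc ‖τ‖ w * ‖h y‖ = ‖((cc ‖τ‖ w : ℝ) : 𝕜) * h y‖ := by
    intro y
    rw [norm_mul (((cc ‖τ‖ w : ℝ) : 𝕜)) (h y), RCLike.norm_ofReal, abs_of_pos hc0]
  have hhle : ∀ y, ‖y‖ ≤ 1 → ‖h y‖ ≤ 1 := by
    intro y hy
    have hyB := (norm_le_one_iff y).1 hy
    have h1 := hyB.key ‖τ‖ w
    have h2 : cc ‖τ‖ w * ‖h y‖ ≤ ‖y 2‖ + E * (1 + w) * ‖y 1‖ + 2 * E * ‖τ‖ * ‖y 0‖ := by
      rw [hccn, hha]
      refine (norm_add_le _ _).trans (add_le_add ((norm_add_le _ _).trans (add_le_add ?_ ?_)) ?_)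
      · rw [norm_mul, RCLike.norm_conj, hz₀, one_mul]
      · rw [norm_mul, RCLike.norm_ofReal, abs_of_pos (by positivity)]
      · rw [norm_mul, norm_mul, RCLike.norm_ofReal, abs_of_pos (by positivity), RCLike.norm_conj,
          ← mul_assoc]
    have h3 : cc ‖τ‖ w * ‖h y‖ ≤ cc ‖τ‖ w * 1 := by
      rw [mul_one]
      exact h2.trans h1
    exact le_of_mul_le_mul_left h3 hc0
  have hzz := conj_mul_self hz₀
  set v : XX 𝕜 := pt τ ((d : ℝ) : 𝕜) (((1 - κ : ℝ) : 𝕜) * z₀) with hv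
  have hv2 : ‖((1 - κ : ℝ) : 𝕜) * z₀‖ = 1 - κ := by
    rw [norm_mul, hz₀, RCLike.norm_ofReal, abs_of_nonneg (by linarith), mul_one]
  have hv1 : ‖((d : ℝ) : 𝕜)‖ = d := by
    rw [RCLike.norm_ofReal, abs_of_pos hd0]
  have hPhv : Ph ‖τ‖ d = κ := by
    rw [hκ]
    exact Ph_eq hd0 (hwd.trans hD)
  clear_value E d κ
  refine ⟨v, h, κ, ?_, ?_, ?_, hκ0, by linarith, ?_, ?_⟩
  · rw [norm_le_one_iff]
    refine ⟨?_, ?_⟩
    · rw [hv, pt_0, pt_1, pt_2, hv1, hv2]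
      have e1 : d ^ 2 ≤ η := by
        have := mul_le_mul hwD.le (hwD.le.trans hη5) hd0.le hη0.le
        have h2 : d ^ 2 = d * d := sq d
        linarith
      have e2 : (1 - κ) ^ 2 ≤ 1 := pow_le_one₀ (by linarith) (by linarith)
      linarith
    · rw [hv, pt_0, pt_1, pt_2, hv1, hv2, hPhv]
      linarith
  · exact norm_le_of_ball h 1 zero_le_one hhle
  · have h1 := hha v
    have h2 : ((cc ‖τ‖ w : ℝ) : 𝕜) * h v = ((cc ‖τ‖ w : ℝ) : 𝕜) * 1 := by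
      rw [h1, hv, pt_0, pt_1, pt_2, hccdef, mul_one]
      have h3 : starRingEnd 𝕜 z₀ * (((1 - κ : ℝ) : 𝕜) * z₀) = ((1 - κ : ℝ) : 𝕜) := by
        calc starRingEnd 𝕜 z₀ * (((1 - κ : ℝ) : 𝕜) * z₀) =
            (starRingEnd 𝕜 z₀ * z₀) * ((1 - κ : ℝ) : 𝕜) := by ring
          _ = _ := by rw [hzz, one_mul]
      rw [h3, RCLike.conj_mul]
      have h4 : 1 - κ + E * (1 + w) * d + 2 * E * ‖τ‖ ^ 2 = 1 + E * (2 + ‖τ‖ ^ 2) := by
        have h5 : E * (1 + w) * d = κ + E * (2 - ‖τ‖ ^ 2) := by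
          rw [← hD, ← hwd, hκ]; ring
        rw [h5]; ring
      rw [← h4]
      push_cast
      ring
    have h6 : ((cc ‖τ‖ w : ℝ) : 𝕜) ≠ 0 := by exact_mod_cast hc0.ne'
    exact mul_left_cancel₀ h6 h2
  · rw [hg, hv, pt_2, norm_mul, RCLike.norm_conj, hz₀, one_mul, hv2]
  · -- the slice
    intro y hy hhy
    obtain ⟨u, hu, huy⟩ := exists_rot (h y)
    have hcu := conj_mul_self hu
    set q : XX 𝕜 := u • y with hq
    have hqn : ‖q‖ ≤ 1 := by rw [hq, norm_smul, hu, one_mul]; exact hy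
    have hqB := (norm_le_one_iff q).1 hqn
    have hhq : h q = ((‖h y‖ : ℝ) : 𝕜) := by rw [hq, map_smul, smul_eq_mul, huy]
    refine ⟨starRingEnd 𝕜 u, by rw [RCLike.norm_conj, hu], ?_⟩
    have hyq : y - (starRingEnd 𝕜 u) • pt t₀ 0 z₀ = (starRingEnd 𝕜 u) • (q - pt t₀ 0 z₀) := by
      rw [smul_sub, hq, smul_smul, hcu, one_smul]
    rw [hyq, norm_smul, RCLike.norm_conj, hu, one_mul]
    -- real parts
    have hre : cc ‖τ‖ w * ‖h y‖ = RCLike.re (starRingEnd 𝕜 z₀ * q 2) +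
        E * (1 + w) * RCLike.re (q 1) + 2 * E * RCLike.re (starRingEnd 𝕜 τ * q 0) := by
      have h1 := congrArg RCLike.re (hha q)
      rw [hhq, ← RCLike.ofReal_mul, RCLike.ofReal_re, map_add, map_add, RCLike.re_ofReal_mul,
        RCLike.re_ofReal_mul] at h1
      exact h1
    have r1 : RCLike.re (q 1) ≤ ‖q 1‖ := RCLike.re_le_norm _
    have r2 : RCLike.re (starRingEnd 𝕜 z₀ * q 2) ≤ ‖q 2‖ := by
      have := RCLike.re_le_norm (starRingEnd 𝕜 z₀ * q 2)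
      rwa [norm_mul, RCLike.norm_conj, hz₀, one_mul] at this
    have r3 : ‖q 0 - τ‖ ^ 2 = ‖q 0‖ ^ 2 - 2 * RCLike.re (starRingEnd 𝕜 τ * q 0) + ‖τ‖ ^ 2 := by
      have h1 := norm_sub_sq (𝕜 := 𝕜) (q 0) τ
      have h2 : RCLike.re (inner 𝕜 (q 0) τ) = RCLike.re (starRingEnd 𝕜 τ * q 0) := by
        rw [inner_re_symm]
        simp [mul_comm]
      rw [h2] at h1
      exact h1
    have r3' : RCLike.re (starRingEnd 𝕜 τ * q 0) ≤ ‖τ‖ * ‖q 0‖ := by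
      have := RCLike.re_le_norm (starRingEnd 𝕜 τ * q 0)
      rwa [norm_mul, RCLike.norm_conj] at this
    have r4 : ‖q 2 - z₀‖ ^ 2 = ‖q 2‖ ^ 2 - 2 * RCLike.re (starRingEnd 𝕜 z₀ * q 2) + 1 := by
      have h1 := norm_sub_sq (𝕜 := 𝕜) (q 2) z₀
      have h2 : RCLike.re (inner 𝕜 (q 2) z₀) = RCLike.re (starRingEnd 𝕜 z₀ * q 2) := by
        rw [inner_re_symm]
        simp [mul_comm]
      rw [h2, hz₀] at h1
      rw [h1]; ring
    -- the lower bound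
    have lo : cc ‖τ‖ w - 2 * (κ / ε) ≤ cc ‖τ‖ w * ‖h y‖ := by
      have h1 := mul_le_mul_of_nonneg_left hhy hc0.le
      have h2 : cc ‖τ‖ w * (κ / ε) ≤ 2 * (κ / ε) :=
        mul_le_mul_of_nonneg_right hc2 (by positivity)
      linarith
    rw [hre] at lo
    have hb : ‖q 0‖ ^ 2 ≤ 2 := by linarith [sq_nonneg ‖q 1‖, sq_nonneg ‖q 2‖, hqB.1]
    have hPk := Ph_key (norm_nonneg (q 1)) hb w
    rw [← hE] at hPk
    have hP0 := Ph_nonneg (b := ‖q 0‖) (norm_nonneg (q 1))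
    have hq2 : ‖q 2‖ ≤ 1 := by linarith [hqB.2]
    have hEw : 0 < E * (1 + w) := by positivity
    have m1 := mul_le_mul_of_nonneg_left r1 hEw.le
    -- (i)
    have i1 : E * ‖q 0 - τ‖ ^ 2 ≤ 2 * (κ / ε) := by
      rw [r3]
      have := hqB.2
      rw [hccdef] at lo
      linarith
    have i2 : ‖q 0 - τ‖ ^ 2 ≤ 2 * (d / ε) := by
      have h1 : E * ‖q 0 - τ‖ ^ 2 ≤ E * (2 * (d / ε)) := by
        refine i1.trans (le_of_eq ?_)
        rw [hκ]; ring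
      exact le_of_mul_le_mul_left h1 hE0
    have i3 : ‖q 0 - τ‖ < ε / 4 := by
      have h1 : 2 * (d / ε) < (ε / 4) ^ 2 := by
        have h2 : d / ε < (ε ^ 3 / 128) / ε + 0 := by
          rw [add_zero]
          exact div_lt_div_of_pos_right (by linarith) hε
        have h3 : (ε ^ 3 / 128) / ε = ε ^ 2 / 128 := by field_simp
        rw [h3] at h2
        have h4 : (ε / 4) ^ 2 = ε ^ 2 / 16 := by ring
        rw [h4]
        have h5 : 0 < ε ^ 2 := pow_pos hε 2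
        linarith
      exact lt_of_pow_lt_pow_left₀ 2 (by positivity) (i2.trans_lt h1)
    -- (ii)
    have b1 : ‖q 1‖ ≤ 2 := by
      have h1 : ‖q 1‖ ^ 2 ≤ 2 ^ 2 := by
        linarith [sq_nonneg ‖q 0‖, sq_nonneg ‖q 2‖, hqB.1]
      exact le_of_sq_le_sq h1 (by norm_num)
    have b0 : ‖q 0‖ ≤ 2 := le_of_sq_le_sq (by linarith) (by norm_num)
    have b01 : ‖τ‖ * ‖q 0‖ ≤ 1 := by
      have := mul_le_mul hτ2.le b0 (norm_nonneg _) (by norm_num)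
      linarith
    have ii1 : 1 - σ₀ ≤ RCLike.re (starRingEnd 𝕜 z₀ * q 2) := by
      have h1 : E * (1 + w) * ‖q 1‖ ≤ η * 2 := mul_le_mul hwE.le b1 (norm_nonneg _) hη0.le
      have h2 : 2 * E * RCLike.re (starRingEnd 𝕜 τ * q 0) ≤ 2 * E * 1 :=
        mul_le_mul_of_nonneg_left (r3'.trans b01) (by positivity)
      have h3 : 2 * (κ / ε) ≤ 4 / ε * η := by
        have : κ / ε ≤ η / ε := div_le_div_of_nonneg_right hκη'.le hε.le
        have h4 : 4 / ε * η = 4 * (η / ε) := by ring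
        have h5 : 0 ≤ η / ε := by positivity
        linarith
      have h6 : η * (4 / ε + 4) = 4 / ε * η + 4 * η := by ring
      rw [h6] at hη4'
      linarith
    have ii2 : Ph ‖q 0‖ ‖q 1‖ ≤ σ₀ := by linarith [hqB.2]
    have ii3 : ‖q 2 - z₀‖ < ε / 4 := by
      have h1 : ‖q 2‖ ^ 2 ≤ 1 := pow_le_one₀ (norm_nonneg _) hq2
      have h2 : ‖q 2 - z₀‖ ^ 2 < (ε / 4) ^ 2 := by
        rw [r4]
        have h5 : 0 < ε ^ 2 := by positivity
        have h6 : (ε / 4) ^ 2 = ε ^ 2 / 16 := by ring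
        rw [h6]
        linarith
      exact lt_of_pow_lt_pow_left₀ 2 (by positivity) h2
    -- (iii)
    have iii : ‖q 1‖ < ε / 4 := by
      by_contra hcon
      push Not at hcon
      rw [← hs₁] at hcon
      have hq1 : 0 < ‖q 1‖ := lt_of_lt_of_le hs₁0 hcon
      have h1 : (2 - ‖q 0‖ ^ 2) / ‖q 1‖ ≤ 2 / s₁ := by
        refine div_le_div₀ (by norm_num) ?_ hs₁0 hcon
        linarith [sq_nonneg ‖q 0‖]
      have h2 : s₁ * Real.exp (-(2 / s₁)) ≤ Ph ‖q 0‖ ‖q 1‖ := by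
        unfold Ph
        refine mul_le_mul hcon (Real.exp_le_exp.2 (by linarith)) (Real.exp_pos _).le hq1.le
      have h3 : 0 < s₁ * Real.exp (-(2 / s₁)) := by positivity
      linarith
    -- conclusion
    have hfin := norm_le_sum (q - pt t₀ 0 z₀)
    rw [sub_co, sub_co, sub_co, pt_0, pt_1, pt_2, sub_zero] at hfin
    have hlast : ‖q 0 - t₀‖ ≤ ‖q 0 - τ‖ + ‖τ - t₀‖ := by
      have : q 0 - t₀ = (q 0 - τ) + (τ - t₀) := by ring
      rw [this]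
      exact norm_add_le _ _
    linarith

/-- The space has property `PropQ`. -/
theorem propQ_XX : PropQ 𝕜 (XX 𝕜) := by
  have hprop : ProperSpace (XX 𝕜) := FiniteDimensional.proper_rclike 𝕜 _
  intro x g hx hg hgx ε hε
  by_cases hA : ∀ y : XX 𝕜, ‖y‖ ≤ 1 → ‖g y‖ = 1 → ∃ c : 𝕜, ‖c‖ = 1 ∧ y = c • x
  · -- Case A
    set C : Set (XX 𝕜) := {y | ‖y‖ ≤ 1 ∧ ∀ c : 𝕜, ‖c‖ = 1 → ε ≤ ‖y - c • x‖} with hC
    have hCc : IsCompact C := by
      refine (isCompact_closedBall (0 : XX 𝕜) 1).of_isClosed_subset ?_ (fun y hy => by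
        simpa using hy.1)
      have : C = {y : XX 𝕜 | ‖y‖ ≤ 1} ∩ ⋂ (c : 𝕜) (_ : ‖c‖ = 1), {y | ε ≤ ‖y - c • x‖} := by
        ext y
        simp [hC]
      rw [this]
      refine (isClosed_le continuous_norm continuous_const).inter ?_
      exact isClosed_iInter fun c => isClosed_iInter fun _ =>
        isClosed_le continuous_const (by fun_prop)
    rcases C.eq_empty_or_nonempty with hE | hne
    · refine ⟨x, g, ε / 2, hx.le, hg, hgx, by positivity, by linarith, ?_, fun y hy _ => ?_⟩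
      · rw [hgx, norm_one]; linarith
      · by_contra hcon
        push Not at hcon
        have : y ∈ C := ⟨hy, hcon⟩
        rw [hE] at this
        exact this
    · obtain ⟨m, hm, hmax⟩ := hCc.exists_isMaxOn hne (f := fun y => ‖g y‖) (by fun_prop)
      have hgm : ‖g m‖ ≤ 1 := by
        have := g.le_opNorm m
        have h2 : ‖g‖ * ‖m‖ ≤ 1 * 1 := mul_le_mul hg hm.1 (norm_nonneg _) zero_le_one
        linarith
      have hgm1 : ‖g m‖ < 1 := by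
        refine lt_of_le_of_ne hgm fun h1 => ?_
        obtain ⟨c, hc, hmc⟩ := hA m hm.1 h1
        have := hm.2 c hc
        rw [hmc, sub_self, norm_zero] at this
        linarith
      set κ : ℝ := min (ε / 2) (ε * (1 - ‖g m‖) / 2) with hκ
      have hκ0 : 0 < κ := lt_min (by positivity) (by
        have : 0 < 1 - ‖g m‖ := by linarith
        positivity)
      have hκ1 : κ ≤ ε / 2 := min_le_left _ _
      have hκ2 : κ ≤ ε * (1 - ‖g m‖) / 2 := min_le_right _ _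
      refine ⟨x, g, κ, hx.le, hg, hgx, hκ0, by linarith, ?_, fun y hy hgy => ?_⟩
      · rw [hgx, norm_one]; linarith
      · by_contra hcon
        push Not at hcon
        have h1 : ‖g y‖ ≤ ‖g m‖ := hmax (⟨hy, hcon⟩ : y ∈ C)
        have h2 : κ / ε ≤ (1 - ‖g m‖) / 2 := by
          rw [div_le_iff₀ hε]
          linarith
        linarith
  · -- Case B
    push Not at hA
    obtain ⟨y, hy, hgy, hyne⟩ := hA
    obtain ⟨u, hu, huy⟩ := exists_rot (g y)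
    have hcu := conj_mul_self hu
    have h1 : g (u • y) = 1 := by
      rw [map_smul, smul_eq_mul, huy, hgy]
      simp
    have h2 : ‖u • y‖ ≤ 1 := by rw [norm_smul, hu, one_mul]; exact hy
    have h3 : x ≠ u • y := by
      intro h
      refine hyne (starRingEnd 𝕜 u) (by rw [RCLike.norm_conj, hu]) ?_
      rw [h, smul_smul, hcu, one_smul]
    obtain ⟨f1, f2, f3, f4⟩ := face g hg x (u • y) hx.le h2 hgx h1 h3
    have hxp : x = pt (x 0) 0 (x 2) := XX_ext rfl f2 rfl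
    have := caseB (x 0) (x 2) f1 f3 g f4 ε hε
    rw [← hxp] at this
    exact this

/-- The space is not uniformly convex. -/
theorem not_uc : ∃ x₁ x₂ : XX 𝕜, ‖x₁‖ = 1 ∧ ‖x₂‖ = 1 ∧ ‖x₁ + x₂‖ = 2 ∧ x₁ ≠ x₂ := by
  have h12 : ‖((1 / 2 : ℝ) : 𝕜)‖ = 1 / 2 := by
    rw [RCLike.norm_ofReal, abs_of_pos (by norm_num)]
  have a1 : ‖(pt ((1 / 2 : ℝ) : 𝕜) 0 1 : XX 𝕜)‖ ≤ 1 := by
    rw [norm_le_one_iff]
    refine ⟨?_, ?_⟩
    · rw [pt_0, pt_1, pt_2, h12, norm_zero, norm_one]; norm_num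
    · rw [pt_0, pt_1, pt_2, norm_zero, norm_one, Ph_zero, add_zero]
  have a2 : ‖(pt (-((1 / 2 : ℝ) : 𝕜)) 0 1 : XX 𝕜)‖ ≤ 1 := by
    rw [norm_le_one_iff]
    refine ⟨?_, ?_⟩
    · rw [pt_0, pt_1, pt_2, norm_neg, h12, norm_zero, norm_one]; norm_num
    · rw [pt_0, pt_1, pt_2, norm_zero, norm_one, Ph_zero, add_zero]
  have b1 := co2_le_norm (pt ((1 / 2 : ℝ) : 𝕜) 0 1 : XX 𝕜)
  have b2 := co2_le_norm (pt (-((1 / 2 : ℝ) : 𝕜)) 0 1 : XX 𝕜)
  rw [pt_2, norm_one] at b1 b2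
  refine ⟨pt ((1 / 2 : ℝ) : 𝕜) 0 1, pt (-((1 / 2 : ℝ) : 𝕜)) 0 1, le_antisymm a1 b1,
    le_antisymm a2 b2, ?_, ?_⟩
  · apply le_antisymm
    · refine (norm_add_le _ _).trans ?_
      linarith
    · refine le_trans ?_ (co2_le_norm _)
      rw [add_co, pt_2, pt_2]
      have : ‖((2 : ℝ) : 𝕜)‖ = 2 := by rw [RCLike.norm_ofReal, abs_of_pos (by norm_num)]
      have h2 : (1 : 𝕜) + 1 = ((2 : ℝ) : 𝕜) := by push_cast; norm_num
      rw [h2, this]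
  · intro h
    have h1 : ((1 / 2 : ℝ) : 𝕜) = -((1 / 2 : ℝ) : 𝕜) := by
      have := congrFun h 0
      exact this
    have h2 : ((1 / 2 : ℝ) : 𝕜) = ((-(1 / 2) : ℝ) : 𝕜) := by rw [RCLike.ofReal_neg]; exact h1
    have h3 := RCLike.ofReal_injective h2
    norm_num at h3

end Pool.Agent.H34.BPB
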