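import Mathlib
import Pool.Agent.H34.BPB.Main

/-!
# `PropQ` passes to `ℓ²`-sums with Hilbert spaces
-/

set_option autoImplicit false

open Filter Topology

namespace Pool.Agent.H34.BPB

universe u v w

section Sum

variable {𝕜 : Type w} [RCLike 𝕜]

theorem aux_le {V : Type u} [NormedAddCommGroup V] [NormedSpace 𝕜 V] (g : V →L[𝕜] 𝕜)
    (hg : ‖g‖ ≤ 1) (p e : V) (a : ℝ) (hgp : g p = 1)
    (h : ∀ c : 𝕜, ‖c‖ = 1 → ∀ τ : ℝ, 0 < τ →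
      ‖p + ((τ : ℝ) : 𝕜) • (c • e)‖ ^ 2 ≤ 1 + 2 * a * τ + τ ^ 2) : ‖g e‖ ≤ a := by
  obtain ⟨c, hc, hce⟩ := exists_rot (g e)
  set s : ℝ := ‖g e‖ with hs
  have hs0 : 0 ≤ s := norm_nonneg _
  by_contra hcon
  push Not at hcon
  set τ : ℝ := s - a with hτ
  have hτ0 : 0 < τ := by linarith
  have h1 := h c hc τ hτ0
  have h2 : g (p + ((τ : ℝ) : 𝕜) • (c • e)) = ((1 + τ * s : ℝ) : 𝕜) := by
    rw [map_add, map_smul, map_smul, hgp, smul_eq_mul, smul_eq_mul, hce]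
    push_cast
    ring
  have h3 : 1 + τ * s ≤ ‖p + ((τ : ℝ) : 𝕜) • (c • e)‖ := by
    have h4 := g.le_opNorm (p + ((τ : ℝ) : 𝕜) • (c • e))
    rw [h2, RCLike.norm_ofReal, abs_of_nonneg (by positivity)] at h4
    have h5 : ‖g‖ * ‖p + ((τ : ℝ) : 𝕜) • (c • e)‖ ≤ 1 * ‖p + ((τ : ℝ) : 𝕜) • (c • e)‖ :=
      mul_le_mul_of_nonneg_right hg (norm_nonneg _)
    linarith
  have h6 : (1 + τ * s) ^ 2 ≤ 1 + 2 * a * τ + τ ^ 2 :=
    (pow_le_pow_left₀ (by positivity) h3 2).trans h1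
  have h7 : τ * τ = τ * s - τ * a := by rw [hτ]; ring
  nlinarith [mul_pos hτ0 hτ0, sq_nonneg (τ * s)]

theorem eq_of_sum {z z' : 𝕜} {s t : ℝ} (hz : ‖z‖ ≤ s) (hz' : ‖z'‖ ≤ t)
    (h : z + z' = ((s + t : ℝ) : 𝕜)) : z = ((s : ℝ) : 𝕜) := by
  have h1 : RCLike.re z + RCLike.re z' = s + t := by
    rw [← map_add, h, RCLike.ofReal_re]
  have h2 := RCLike.re_le_norm z
  have h3 := RCLike.re_le_norm z'
  have h4 : RCLike.re z = s := by linarith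
  have h5 : ‖z‖ = s := by linarith
  have h6 := RCLike.norm_sq_eq_def (z := z)
  have h7 : RCLike.im z = 0 := by
    have : RCLike.im z * RCLike.im z = 0 := by rw [h5, h4] at h6; linarith
    exact mul_self_eq_zero.1 this
  apply RCLike.ext
  · rw [h4, RCLike.ofReal_re]
  · rw [h7, RCLike.ofReal_im]

variable {X : Type u} [NormedAddCommGroup X] [NormedSpace 𝕜 X]
  {H : Type v} [NormedAddCommGroup H] [InnerProductSpace 𝕜 H]

theorem norm_sq_sum (y : WithLp 2 (X × H)) : ‖y‖ ^ 2 = ‖y.fst‖ ^ 2 + ‖y.snd‖ ^ 2 :=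
  WithLp.prod_norm_sq_eq_of_L2 y

theorem norm_le_add (y : WithLp 2 (X × H)) : ‖y‖ ≤ ‖y.fst‖ + ‖y.snd‖ := by
  have h1 := norm_sq_sum y
  have h2 := mul_nonneg (norm_nonneg y.fst) (norm_nonneg y.snd)
  nlinarith [norm_nonneg y, norm_nonneg y.fst, norm_nonneg y.snd]

/-- the functional of the sum -/
noncomputable def hsum (a : ℝ) (b : H) (h₁ : X →L[𝕜] 𝕜) : WithLp 2 (X × H) →L[𝕜] 𝕜 :=
  ((a : ℝ) : 𝕜) • (h₁.comp (WithLp.fstL 2 𝕜 X H)) +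
    (innerSL 𝕜 b).comp (WithLp.sndL 2 𝕜 X H)

theorem hsum_apply (a : ℝ) (b : H) (h₁ : X →L[𝕜] 𝕜) (y : WithLp 2 (X × H)) :
    hsum a b h₁ y = ((a : ℝ) : 𝕜) * h₁ y.fst + inner 𝕜 b y.snd := rfl

theorem hsum_le {a : ℝ} (ha : 0 ≤ a) {b : H} (_hab : a ^ 2 + ‖b‖ ^ 2 = 1) {h₁ : X →L[𝕜] 𝕜}
    (_hh₁ : ‖h₁‖ ≤ 1) (y : WithLp 2 (X × H)) :
    ‖hsum a b h₁ y‖ ≤ a * ‖h₁ y.fst‖ + ‖b‖ * ‖y.snd‖ := by
  rw [hsum_apply]
  refine (norm_add_le _ _).trans (add_le_add ?_ (norm_inner_le_norm _ _))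
  rw [norm_mul, RCLike.norm_ofReal, abs_of_nonneg ha]

theorem cs_le {a β p q : ℝ} (hab : a ^ 2 + β ^ 2 = 1) (hpq : p ^ 2 + q ^ 2 ≤ 1) :
    a * p + β * q ≤ 1 := by
  nlinarith [sq_nonneg (a - p), sq_nonneg (β - q)]

theorem apply_le_one {h₁ : X →L[𝕜] 𝕜} (hh₁ : ‖h₁‖ ≤ 1) (y : X) : ‖h₁ y‖ ≤ ‖y‖ := by
  have := h₁.le_opNorm y
  have h2 : ‖h₁‖ * ‖y‖ ≤ 1 * ‖y‖ := mul_le_mul_of_nonneg_right hh₁ (norm_nonneg _)
  linarith

theorem hsum_norm_le {a : ℝ} (ha : 0 ≤ a) {b : H} (hab : a ^ 2 + ‖b‖ ^ 2 = 1) {h₁ : X →L[𝕜] 𝕜}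
    (hh₁ : ‖h₁‖ ≤ 1) : ‖hsum a b h₁‖ ≤ 1 := by
  refine norm_le_of_ball _ 1 zero_le_one fun y hy => ?_
  refine (hsum_le ha hab hh₁ y).trans ?_
  have h1 := norm_sq_sum y
  have h2 : ‖y‖ ^ 2 ≤ 1 := pow_le_one₀ (norm_nonneg _) hy
  have h3 := apply_le_one hh₁ y.fst
  have h4 : a * ‖h₁ y.fst‖ ≤ a * ‖y.fst‖ := mul_le_mul_of_nonneg_left h3 ha
  have h5 := cs_le (a := a) (β := ‖b‖) (p := ‖y.fst‖) (q := ‖y.snd‖) hab (by linarith)
  linarith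

/-- rotating a point where `hsum` is nearly `1` -/
theorem exists_c {a : ℝ} {b : H} (hab : a ^ 2 + ‖b‖ ^ 2 = 1) {h₁ : X →L[𝕜] 𝕜}
    (hh₁ : ‖h₁‖ ≤ 1) (y : WithLp 2 (X × H)) (hy : ‖y‖ ≤ 1) {δ : ℝ}
    (hd : 1 - δ ≤ ‖hsum a b h₁ y‖) : ∃ c : 𝕜, ‖c‖ = 1 ∧
      ‖h₁ y.fst - c * ((a : ℝ) : 𝕜)‖ ^ 2 + ‖y.snd - c • b‖ ^ 2 ≤ 2 * δ := by
  obtain ⟨u, hu, hue⟩ := exists_rot (hsum a b h₁ y)
  have hcu := conj_mul_self hu
  refine ⟨starRingEnd 𝕜 u, by rw [RCLike.norm_conj, hu], ?_⟩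
  have e1 : h₁ y.fst - starRingEnd 𝕜 u * ((a : ℝ) : 𝕜) =
      starRingEnd 𝕜 u * (u * h₁ y.fst - ((a : ℝ) : 𝕜)) := by
    linear_combination (-(h₁ y.fst)) * hcu
  have e2 : y.snd - starRingEnd 𝕜 u • b = starRingEnd 𝕜 u • (u • y.snd - b) := by
    rw [smul_sub, smul_smul, hcu, one_smul]
  rw [e1, e2, norm_mul, norm_smul, RCLike.norm_conj, hu, one_mul, one_mul]
  have f1 : ‖u * h₁ y.fst - ((a : ℝ) : 𝕜)‖ ^ 2 = ‖h₁ y.fst‖ ^ 2 -
      2 * RCLike.re (((a : ℝ) : 𝕜) * (u * h₁ y.fst)) + a ^ 2 := by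
    have := norm_sub_sq (𝕜 := 𝕜) (u * h₁ y.fst) ((a : ℝ) : 𝕜)
    rw [this, norm_mul, hu, one_mul, RCLike.norm_ofReal, sq_abs, inner_re_symm,
      RCLike.inner_apply, RCLike.conj_ofReal, mul_comm (u * h₁ y.fst)]
  have f2 : ‖u • y.snd - b‖ ^ 2 = ‖y.snd‖ ^ 2 -
      2 * RCLike.re (u * inner 𝕜 b y.snd) + ‖b‖ ^ 2 := by
    have := norm_sub_sq (𝕜 := 𝕜) (u • y.snd) b
    rw [this, norm_smul, hu, one_mul, inner_re_symm, inner_smul_right]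
  have f3 : RCLike.re (((a : ℝ) : 𝕜) * (u * h₁ y.fst)) + RCLike.re (u * inner 𝕜 b y.snd) =
      ‖hsum a b h₁ y‖ := by
    rw [← map_add]
    have : ((a : ℝ) : 𝕜) * (u * h₁ y.fst) + u * inner 𝕜 b y.snd = u * hsum a b h₁ y := by
      rw [hsum_apply]; ring
    rw [this, hue, RCLike.ofReal_re]
  have h1 := norm_sq_sum y
  have h2 : ‖y‖ ^ 2 ≤ 1 := pow_le_one₀ (norm_nonneg _) hy
  have h3 : ‖h₁ y.fst‖ ^ 2 ≤ ‖y.fst‖ ^ 2 :=
    pow_le_pow_left₀ (norm_nonneg _) (apply_le_one hh₁ y.fst) 2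
  rw [f1, f2]
  linarith

/-- **`PropQ` passes to `ℓ²`-sums with Hilbert spaces.** -/
theorem propQ_sum (hQ : PropQ 𝕜 X) : PropQ 𝕜 (WithLp 2 (X × H)) := by
  intro p g hp hg hgp ε hε
  have hp2 := norm_sq_sum p
  rw [hp, one_pow] at hp2
  have ha0 := norm_nonneg p.fst
  have hb0 := norm_nonneg p.snd
  have hab : ‖p.fst‖ ^ 2 + ‖p.snd‖ ^ 2 = 1 := hp2.symm
  -- the components of `g`
  have hgl : ∀ y : X, ‖y‖ ≤ 1 → ‖g (WithLp.toLp 2 (y, 0))‖ ≤ ‖p.fst‖ := by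
    intro y hy
    refine aux_le g hg p _ _ hgp fun c hc τ hτ => ?_
    rw [norm_sq_sum]
    have e1 : (p + ((τ : ℝ) : 𝕜) • (c • (WithLp.toLp 2 (y, (0 : H)) : WithLp 2 (X × H)))).fst =
      p.fst + ((τ : ℝ) : 𝕜) • (c • y) := rfl
    have e2 : (p + ((τ : ℝ) : 𝕜) • (c • (WithLp.toLp 2 (y, (0 : H)) : WithLp 2 (X × H)))).snd =
      p.snd := by
      change p.snd + ((τ : ℝ) : 𝕜) • (c • (0 : H)) = _
      simp
    rw [e1, e2]
    have h1 : ‖p.fst + ((τ : ℝ) : 𝕜) • (c • y)‖ ≤ ‖p.fst‖ + τ := by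
      refine (norm_add_le _ _).trans ?_
      rw [norm_smul, norm_smul, hc, one_mul, RCLike.norm_ofReal, abs_of_pos hτ]
      have := mul_le_mul_of_nonneg_left hy hτ.le
      linarith
    have h2 := pow_le_pow_left₀ (norm_nonneg _) h1 2
    nlinarith
  have hgr : ∀ y : H, ‖y‖ ≤ 1 → ‖g (WithLp.toLp 2 (0, y))‖ ≤ ‖p.snd‖ := by
    intro y hy
    refine aux_le g hg p _ _ hgp fun c hc τ hτ => ?_
    rw [norm_sq_sum]
    have e1 : (p + ((τ : ℝ) : 𝕜) • (c • (WithLp.toLp 2 ((0 : X), y) : WithLp 2 (X × H)))).snd =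
      p.snd + ((τ : ℝ) : 𝕜) • (c • y) := rfl
    have e2 : (p + ((τ : ℝ) : 𝕜) • (c • (WithLp.toLp 2 ((0 : X), y) : WithLp 2 (X × H)))).fst =
      p.fst := by
      change p.fst + ((τ : ℝ) : 𝕜) • (c • (0 : X)) = _
      simp
    rw [e1, e2]
    have h1 : ‖p.snd + ((τ : ℝ) : 𝕜) • (c • y)‖ ≤ ‖p.snd‖ + τ := by
      refine (norm_add_le _ _).trans ?_
      rw [norm_smul, norm_smul, hc, one_mul, RCLike.norm_ofReal, abs_of_pos hτ]
      have := mul_le_mul_of_nonneg_left hy hτ.le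
      linarith
    have h2 := pow_le_pow_left₀ (norm_nonneg _) h1 2
    nlinarith
  set g₁ : X →L[𝕜] 𝕜 := g.comp (((WithLp.prodContinuousLinearEquiv 2 𝕜 X H).symm :
    X × H →L[𝕜] WithLp 2 (X × H)).comp (ContinuousLinearMap.inl 𝕜 X H)) with hg₁
  set g₂ : H →L[𝕜] 𝕜 := g.comp (((WithLp.prodContinuousLinearEquiv 2 𝕜 X H).symm :
    X × H →L[𝕜] WithLp 2 (X × H)).comp (ContinuousLinearMap.inr 𝕜 X H)) with hg₂
  have hg₁a : ∀ y, g₁ y = g (WithLp.toLp 2 (y, 0)) := fun y => rfl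
  have hg₂a : ∀ y, g₂ y = g (WithLp.toLp 2 (0, y)) := fun y => rfl
  have hg₁n : ‖g₁‖ ≤ ‖p.fst‖ := norm_le_of_ball _ _ ha0 fun y hy => by rw [hg₁a]; exact hgl y hy
  have hg₂n : ‖g₂‖ ≤ ‖p.snd‖ := norm_le_of_ball _ _ hb0 fun y hy => by rw [hg₂a]; exact hgr y hy
  have hgsum : ∀ y : WithLp 2 (X × H), g y = g₁ y.fst + g₂ y.snd := by
    intro y
    rw [hg₁a, hg₂a, ← map_add]
    congr 1
    rw [← WithLp.toLp_add]
    simp only [Prod.mk_add_mk, add_zero, zero_add]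
    rfl
  clear_value g₁ g₂
  have hs1 : ‖g₁ p.fst‖ ≤ ‖p.fst‖ ^ 2 := by
    have := g₁.le_opNorm p.fst
    have h2 := mul_le_mul_of_nonneg_right hg₁n ha0
    rw [sq]; linarith
  have hs2 : ‖g₂ p.snd‖ ≤ ‖p.snd‖ ^ 2 := by
    have := g₂.le_opNorm p.snd
    have h2 := mul_le_mul_of_nonneg_right hg₂n hb0
    rw [sq]; linarith
  have hgp' : g₁ p.fst + g₂ p.snd = ((‖p.fst‖ ^ 2 + ‖p.snd‖ ^ 2 : ℝ) : 𝕜) := by
    rw [← hgsum, hgp, hab]; simp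
  have hg₁p : g₁ p.fst = ((‖p.fst‖ ^ 2 : ℝ) : 𝕜) := eq_of_sum hs1 hs2 hgp'
  have hg₂p : g₂ p.snd = ((‖p.snd‖ ^ 2 : ℝ) : 𝕜) := by
    refine eq_of_sum hs2 hs1 ?_
    rw [add_comm, hgp', add_comm]
  rcases ha0.eq_or_lt with ha | ha
  · -- `p.fst = 0`
    have hpf : p.fst = 0 := norm_eq_zero.1 ha.symm
    have hb1 : ‖p.snd‖ = 1 := by
      have : ‖p.snd‖ ^ 2 = 1 := by rw [← ha] at hab; linarith
      have h2 : (‖p.snd‖ - 1) * (‖p.snd‖ + 1) = 0 := by nlinarith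
      rcases mul_eq_zero.1 h2 with h3 | h3 <;> linarith
    set κ : ℝ := min (ε / 2) (ε ^ 3 / 32) with hκ
    have hκ0 : 0 < κ := lt_min (by positivity) (by positivity)
    have hκ1 : κ ≤ ε / 2 := min_le_left _ _
    have hκ2 : κ ≤ ε ^ 3 / 32 := min_le_right _ _
    clear_value κ
    have hab' : (0 : ℝ) ^ 2 + ‖p.snd‖ ^ 2 = 1 := by rw [hb1]; norm_num
    refine ⟨p, hsum 0 p.snd 0, κ, hp.le, hsum_norm_le le_rfl hab' (by simp), ?_, hκ0,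
      by linarith, ?_, ?_⟩
    · rw [hsum_apply, inner_self_eq_norm_sq_to_K, hb1]
      simp
    · rw [hgp]; simp; exact hκ0.le
    · intro y hy hhy
      obtain ⟨c, hc, hcy⟩ := exists_c hab' (by simp) y hy hhy
      refine ⟨c, hc, ?_⟩
      have h0 : ‖y.snd - c • p.snd‖ ^ 2 ≤ 2 * (κ / ε) := by
        have := sq_nonneg ‖(0 : X →L[𝕜] 𝕜) y.fst - c * ((0 : ℝ) : 𝕜)‖
        linarith
      have h1 : 1 - κ / ε ≤ ‖y.snd‖ := by
        have := hsum_le le_rfl hab' (by simp : ‖(0 : X →L[𝕜] 𝕜)‖ ≤ 1) y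
        rw [hb1] at this
        linarith
      have hδ : κ / ε ≤ ε ^ 2 / 32 := by
        rw [div_le_iff₀ hε]
        calc κ ≤ ε ^ 3 / 32 := hκ2
          _ = ε ^ 2 / 32 * ε := by ring
      have hδ1 : κ / ε ≤ 1 / 2 := by
        rw [div_le_iff₀ hε]; linarith
      have hy2 := norm_sq_sum y
      have hy3 : ‖y‖ ^ 2 ≤ 1 := pow_le_one₀ (norm_nonneg _) hy
      have h2 : (1 - κ / ε) ^ 2 ≤ ‖y.snd‖ ^ 2 := pow_le_pow_left₀ (by linarith) h1 2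
      have h3 : ‖y.fst‖ ^ 2 ≤ 2 * (κ / ε) := by nlinarith [sq_nonneg (κ / ε)]
      have h4 : ‖y - c • p‖ ^ 2 ≤ ε ^ 2 / 8 := by
        rw [norm_sq_sum]
        have e1 : (y - c • p).fst = y.fst := by
          change y.fst - c • p.fst = _
          rw [hpf, smul_zero, sub_zero]
        have e2 : (y - c • p).snd = y.snd - c • p.snd := rfl
        rw [e1, e2]
        linarith
      have h5 : ‖y - c • p‖ ^ 2 < ε ^ 2 := by
        have : 0 < ε ^ 2 := by positivity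
        linarith
      exact lt_of_pow_lt_pow_left₀ 2 hε.le h5
  · -- `p.fst ≠ 0`
    set a : ℝ := ‖p.fst‖ with haa
    have haK : ((a : ℝ) : 𝕜) ≠ 0 := by exact_mod_cast ha.ne'
    set x : X := ((a⁻¹ : ℝ) : 𝕜) • p.fst with hx
    set g' : X →L[𝕜] 𝕜 := ((a⁻¹ : ℝ) : 𝕜) • g₁ with hg'
    have hx1 : ‖x‖ = 1 := by
      rw [hx, norm_smul, RCLike.norm_ofReal, abs_of_pos (by positivity), ← haa]
      exact inv_mul_cancel₀ ha.ne'
    have hxp : ((a : ℝ) : 𝕜) • x = p.fst := by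
      rw [hx, smul_smul, ← RCLike.ofReal_mul, mul_inv_cancel₀ ha.ne', RCLike.ofReal_one, one_smul]
    have hg'n : ‖g'‖ ≤ 1 := by
      rw [hg', norm_smul, RCLike.norm_ofReal, abs_of_pos (by positivity),
        inv_mul_le_iff₀ ha, mul_one]
      exact hg₁n
    have hg'a : ∀ y, ((a : ℝ) : 𝕜) * g' y = g₁ y := by
      intro y
      change ((a : ℝ) : 𝕜) * (((a⁻¹ : ℝ) : 𝕜) * g₁ y) = _
      rw [← mul_assoc, ← RCLike.ofReal_mul, mul_inv_cancel₀ ha.ne', RCLike.ofReal_one, one_mul]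
    have hg'x : g' x = 1 := by
      have h1 := hg'a x
      have h2 : ((a : ℝ) : 𝕜) * g₁ x = ((a ^ 2 : ℝ) : 𝕜) := by
        have e := map_smul g₁ ((a : ℝ) : 𝕜) x
        rw [smul_eq_mul, hxp, hg₁p] at e
        exact e.symm
      have h3 : (((a : ℝ) : 𝕜) * ((a : ℝ) : 𝕜)) * g' x = (((a : ℝ) : 𝕜) * ((a : ℝ) : 𝕜)) * 1 := by
        rw [mul_assoc, h1, h2]
        push_cast; ring
      exact mul_left_cancel₀ (mul_ne_zero haK haK) h3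
    clear_value x g'
    have ha1 : a ≤ 1 := by nlinarith [sq_nonneg ‖p.snd‖]
    -- the parameter
    set ε₁ : ℝ := min (1 / 2) (min (ε / 16) (ε ^ 3 / 128)) with hε₁
    have hε₁0 : 0 < ε₁ := lt_min (by norm_num) (lt_min (by positivity) (by positivity))
    have hε₁1 : ε₁ ≤ ε / 16 := (min_le_right _ _).trans (min_le_left _ _)
    have hε₁2 : ε₁ ≤ ε ^ 3 / 128 := (min_le_right _ _).trans (min_le_right _ _)
    have hε₁3 : ε₁ ≤ 1 / 2 := min_le_left _ _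
    clear_value ε₁
    obtain ⟨v₁, h₁, κ₁, hv₁, hh₁, hhv₁, hκ₁, hκε₁, hgv₁, hsl⟩ := hQ x g' hx1 hg'n hg'x ε₁ hε₁0
    -- rotate
    obtain ⟨u, hu, hug⟩ := exists_rot (g' v₁)
    have hcu := conj_mul_self hu
    obtain ⟨c₂, hc₂, hcv⟩ := hsl v₁ hv₁ (by
      rw [hhv₁, norm_one]
      have : 0 < κ₁ / ε₁ := by positivity
      linarith)
    have hg'v1 : ‖g' v₁‖ ≤ 1 := (apply_le_one hg'n v₁).trans hv₁
    have hnear : ‖u • v₁ - x‖ ≤ 3 * ε₁ := by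
      have k1 : ‖u • v₁ - (u * c₂) • x‖ ≤ ε₁ := by
        rw [← smul_smul, ← smul_sub, norm_smul, hu, one_mul]
        exact hcv.le
      have k2 : ‖u * c₂ - ((‖g' v₁‖ : ℝ) : 𝕜)‖ ≤ ε₁ := by
        have e1 : u * c₂ - ((‖g' v₁‖ : ℝ) : 𝕜) = -(g' (u • v₁ - (u * c₂) • x)) := by
          rw [map_sub, map_smul, map_smul, hg'x, smul_eq_mul, smul_eq_mul, hug]
          ring
        rw [e1, norm_neg]
        exact (apply_le_one hg'n _).trans k1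
      have k3 : ‖((‖g' v₁‖ : ℝ) : 𝕜) - 1‖ ≤ κ₁ := by
        have e1 : ((‖g' v₁‖ : ℝ) : 𝕜) - 1 = ((‖g' v₁‖ - 1 : ℝ) : 𝕜) := by push_cast; rfl
        rw [e1, RCLike.norm_ofReal, abs_le]
        constructor <;> linarith
      have k4 : ‖(u * c₂ - 1) • x‖ ≤ ε₁ + κ₁ := by
        rw [norm_smul, hx1, mul_one]
        have e1 : u * c₂ - 1 = (u * c₂ - ((‖g' v₁‖ : ℝ) : 𝕜)) + (((‖g' v₁‖ : ℝ) : 𝕜) - 1) := by ring
        rw [e1]
        exact (norm_add_le _ _).trans (add_le_add k2 k3)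
      have e2 : u • v₁ - x = (u • v₁ - (u * c₂) • x) + (u * c₂ - 1) • x := by
        rw [sub_smul, one_smul]; abel
      rw [e2]
      refine (norm_add_le _ _).trans ?_
      linarith
    set h₂ : X →L[𝕜] 𝕜 := (starRingEnd 𝕜 u) • h₁ with hh₂
    have hh₂a : ∀ y, h₂ y = starRingEnd 𝕜 u * h₁ y := fun y => rfl
    have hh₂n : ‖h₂‖ ≤ 1 := by
      rw [hh₂, norm_smul, RCLike.norm_conj, hu, one_mul]; exact hh₁
    have hh₂v : h₂ (u • v₁) = 1 := by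
      rw [hh₂a, map_smul, hhv₁, smul_eq_mul, mul_one, hcu]
    have hh₂norm : ∀ y, ‖h₂ y‖ = ‖h₁ y‖ := fun y => by
      rw [hh₂a, norm_mul, RCLike.norm_conj, hu, one_mul]
    have hh₂x : ‖h₂ x - 1‖ ≤ 3 * ε₁ := by
      have e1 : h₂ x - 1 = -(h₂ (u • v₁ - x)) := by rw [map_sub, hh₂v]; ring
      rw [e1, norm_neg]
      exact (apply_le_one hh₂n _).trans hnear
    set κ : ℝ := a ^ 2 * κ₁ with hκ
    have ha2 : 0 < a ^ 2 := by positivity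
    have ha21 : a ^ 2 ≤ 1 := pow_le_one₀ ha.le ha1
    have hκ0 : 0 < κ := by positivity
    have hκκ : κ ≤ κ₁ := by
      have := mul_le_mul_of_nonneg_right ha21 hκ₁.le
      linarith
    refine ⟨WithLp.toLp 2 (((a : ℝ) : 𝕜) • (u • v₁), p.snd), hsum a p.snd h₂, κ, ?_,
      hsum_norm_le ha.le hab hh₂n, ?_, hκ0, by linarith, ?_, ?_⟩
    · have h1 := norm_sq_sum (WithLp.toLp 2 (((a : ℝ) : 𝕜) • (u • v₁), p.snd) :
        WithLp 2 (X × H))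
      have h2 : ‖((a : ℝ) : 𝕜) • (u • v₁)‖ ≤ a := by
        rw [norm_smul, norm_smul, hu, one_mul, RCLike.norm_ofReal, abs_of_pos ha]
        have := mul_le_mul_of_nonneg_left hv₁ ha.le
        linarith
      have h3 := pow_le_pow_left₀ (norm_nonneg _) h2 2
      have h4 : ‖(WithLp.toLp 2 (((a : ℝ) : 𝕜) • (u • v₁), p.snd) : WithLp 2 (X × H))‖ ^ 2 ≤
          1 ^ 2 := by
        rw [h1, one_pow]
        change ‖((a : ℝ) : 𝕜) • (u • v₁)‖ ^ 2 + ‖p.snd‖ ^ 2 ≤ 1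
        linarith
      exact le_of_sq_le_sq h4 zero_le_one
    · rw [hsum_apply]
      change ((a : ℝ) : 𝕜) * h₂ (((a : ℝ) : 𝕜) • (u • v₁)) + inner 𝕜 p.snd p.snd = 1
      rw [map_smul, hh₂v, inner_self_eq_norm_sq_to_K, smul_eq_mul, mul_one]
      have : ((a : ℝ) : 𝕜) * ((a : ℝ) : 𝕜) + ((‖p.snd‖ : ℝ) : 𝕜) ^ 2 =
          ((a ^ 2 + ‖p.snd‖ ^ 2 : ℝ) : 𝕜) := by push_cast; ring
      rw [this, hab, RCLike.ofReal_one]
    · rw [hgsum]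
      change 1 - κ ≤ ‖g₁ (((a : ℝ) : 𝕜) • (u • v₁)) + g₂ p.snd‖
      have e1 : g₁ (((a : ℝ) : 𝕜) • (u • v₁)) + g₂ p.snd =
          ((a ^ 2 * ‖g' v₁‖ + ‖p.snd‖ ^ 2 : ℝ) : 𝕜) := by
        rw [map_smul, map_smul, ← hg'a, hg₂p, smul_eq_mul, smul_eq_mul]
        push_cast
        linear_combination (((a : ℝ) : 𝕜) ^ 2) * hug
      rw [e1, RCLike.norm_ofReal, abs_of_nonneg (by positivity)]
      have h1 := mul_le_mul_of_nonneg_left hgv₁ ha2.le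
      rw [hκ]
      linarith
    · intro y hy hhy
      obtain ⟨c, hc, hcy⟩ := exists_c hab hh₂n y hy hhy
      refine ⟨c, hc, ?_⟩
      set δ : ℝ := κ / ε with hδ
      have hδ0 : 0 ≤ δ := by positivity
      have hδa : δ ≤ a ^ 2 * (ε ^ 2 / 128) := by
        rw [hδ, div_le_iff₀ hε, hκ]
        have h1 : a ^ 2 * κ₁ ≤ a ^ 2 * (ε ^ 3 / 128) :=
          mul_le_mul_of_nonneg_left (by linarith) ha2.le
        calc a ^ 2 * κ₁ ≤ a ^ 2 * (ε ^ 3 / 128) := h1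
          _ = a ^ 2 * (ε ^ 2 / 128) * ε := by ring
      have hδb : δ ≤ a ^ 2 * (1 / 16) := by
        rw [hδ, div_le_iff₀ hε, hκ]
        have h1 : a ^ 2 * κ₁ ≤ a ^ 2 * (ε / 16) :=
          mul_le_mul_of_nonneg_left (by linarith) ha2.le
        calc a ^ 2 * κ₁ ≤ a ^ 2 * (ε / 16) := h1
          _ = a ^ 2 * (1 / 16) * ε := by ring
      have hδc : δ = a ^ 2 * (κ₁ / ε) := by rw [hδ, hκ]; ring
      have hδ8 : 2 * δ ≤ (ε / 8) ^ 2 := by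
        have : a ^ 2 * (ε ^ 2 / 128) ≤ 1 * (ε ^ 2 / 128) :=
          mul_le_mul_of_nonneg_right ha21 (by positivity)
        have e1 : (ε / 8) ^ 2 = 2 * (1 * (ε ^ 2 / 128)) := by ring
        rw [e1]; linarith
      have r1 : ‖h₂ y.fst - c * ((a : ℝ) : 𝕜)‖ ≤ ε / 8 := by
        refine le_of_sq_le_sq ?_ (by positivity)
        have := sq_nonneg ‖y.snd - c • p.snd‖
        linarith
      have r2 : ‖y.snd - c • p.snd‖ ≤ ε / 8 := by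
        refine le_of_sq_le_sq ?_ (by positivity)
        have := sq_nonneg ‖h₂ y.fst - c * ((a : ℝ) : 𝕜)‖
        linarith
      set N : ℝ := ‖y.fst‖ with hN
      have hN0 : 0 ≤ N := norm_nonneg _
      have hy2 := norm_sq_sum y
      have hy3 : ‖y‖ ^ 2 ≤ 1 := pow_le_one₀ (norm_nonneg _) hy
      have hNy : N ^ 2 + ‖y.snd‖ ^ 2 ≤ 1 := by rw [hN]; linarith
      have hlow := hsum_le ha.le hab hh₂n y
      have hlow2 : 1 - δ ≤ a * ‖h₂ y.fst‖ + ‖p.snd‖ * ‖y.snd‖ := hhy.trans hlow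
      have hcs := cs_le (a := a) (β := ‖p.snd‖) (p := N) (q := ‖y.snd‖) hab hNy
      have hhN : ‖h₂ y.fst‖ ≤ N := apply_le_one hh₂n _
      have hahN : a * ‖h₂ y.fst‖ ≤ a * N := mul_le_mul_of_nonneg_left hhN ha.le
      have t1 : (N - a) ^ 2 ≤ 2 * δ := by
        nlinarith [sq_nonneg (‖y.snd‖ - ‖p.snd‖)]
      have hNa : a / 2 ≤ N := by
        by_contra hcon
        push Not at hcon
        have h1 : (a / 2) ^ 2 < (N - a) ^ 2 := by nlinarith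
        nlinarith
      have hNpos : 0 < N := by linarith
      have t2 : N - ‖h₂ y.fst‖ ≤ a * (κ₁ / ε) := by
        have h1 : a * (N - ‖h₂ y.fst‖) ≤ a * (a * (κ₁ / ε)) := by
          have : a * (a * (κ₁ / ε)) = δ := by rw [hδc]; ring
          rw [this]; linarith
        exact le_of_mul_le_mul_left h1 ha
      have hKN : ‖((N⁻¹ : ℝ) : 𝕜)‖ = N⁻¹ := by
        rw [RCLike.norm_ofReal, abs_of_pos (by positivity)]
      obtain ⟨c₁, hc₁, hcc₁⟩ := hsl (((N⁻¹ : ℝ) : 𝕜) • y.fst)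
        (by rw [norm_smul, hKN, ← hN, inv_mul_cancel₀ hNpos.ne']) (by
        rw [map_smul, norm_smul, hKN, ← hh₂norm]
        have h1 : κ₁ / ε * 2 ≤ κ₁ / ε₁ := by
          rw [le_div_iff₀ hε₁0]
          calc κ₁ / ε * 2 * ε₁ ≤ κ₁ / ε * 2 * (ε / 2) :=
                mul_le_mul_of_nonneg_left (by linarith) (by positivity)
            _ = κ₁ := by field_simp
        have h2 : 1 - κ₁ / ε * 2 ≤ N⁻¹ * ‖h₂ y.fst‖ := by
          rw [le_inv_mul_iff₀ hNpos]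
          have h3 : a * (κ₁ / ε) ≤ (2 * N) * (κ₁ / ε) :=
            mul_le_mul_of_nonneg_right (by linarith) (by positivity)
          linarith
        linarith)
      -- `y.fst` is near `c₁ N x`
      have hyN : y.fst = ((N : ℝ) : 𝕜) • (((N⁻¹ : ℝ) : 𝕜) • y.fst) := by
        rw [smul_smul, ← RCLike.ofReal_mul, mul_inv_cancel₀ hNpos.ne', RCLike.ofReal_one, one_smul]
      have hN1 : N ≤ 1 := by nlinarith [sq_nonneg ‖y.snd‖]
      have w1 : ‖y.fst - (((N : ℝ) : 𝕜) * c₁) • x‖ ≤ ε₁ := by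
        have e1 : y.fst - (((N : ℝ) : 𝕜) * c₁) • x =
            ((N : ℝ) : 𝕜) • ((((N⁻¹ : ℝ) : 𝕜) • y.fst) - c₁ • x) := by
          rw [smul_sub, ← hyN, smul_smul]
        rw [e1, norm_smul, RCLike.norm_ofReal, abs_of_pos hNpos]
        have := mul_le_mul hN1 hcc₁.le (norm_nonneg _) zero_le_one
        linarith
      have w2 : ‖h₂ y.fst - (((N : ℝ) : 𝕜) * c₁) * h₂ x‖ ≤ ε₁ := by
        have e1 : h₂ y.fst - (((N : ℝ) : 𝕜) * c₁) * h₂ x =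
            h₂ (y.fst - (((N : ℝ) : 𝕜) * c₁) • x) := by
          rw [map_sub, map_smul, smul_eq_mul]
        rw [e1]
        exact (apply_le_one hh₂n _).trans w1
      have hNc : ‖((N : ℝ) : 𝕜) * c₁‖ ≤ 1 := by
        rw [norm_mul, hc₁, RCLike.norm_ofReal, abs_of_pos hNpos, mul_one]; exact hN1
      have w3 : ‖(((N : ℝ) : 𝕜) * c₁) * h₂ x - ((N : ℝ) : 𝕜) * c₁‖ ≤ 3 * ε₁ := by
        have e1 : (((N : ℝ) : 𝕜) * c₁) * h₂ x - ((N : ℝ) : 𝕜) * c₁ =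
            (((N : ℝ) : 𝕜) * c₁) * (h₂ x - 1) := by ring
        rw [e1, norm_mul]
        have := mul_le_mul hNc hh₂x (norm_nonneg _) zero_le_one
        linarith
      have w4 : ‖((N : ℝ) : 𝕜) * c₁ - c * ((a : ℝ) : 𝕜)‖ ≤ 4 * ε₁ + ε / 8 := by
        have e1 : ((N : ℝ) : 𝕜) * c₁ - c * ((a : ℝ) : 𝕜) =
            (h₂ y.fst - c * ((a : ℝ) : 𝕜)) - (h₂ y.fst - (((N : ℝ) : 𝕜) * c₁) * h₂ x) -
              ((((N : ℝ) : 𝕜) * c₁) * h₂ x - ((N : ℝ) : 𝕜) * c₁) := by ring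
        rw [e1]
        refine (norm_sub_le _ _).trans ?_
        have := norm_sub_le (h₂ y.fst - c * ((a : ℝ) : 𝕜))
          (h₂ y.fst - (((N : ℝ) : 𝕜) * c₁) * h₂ x)
        linarith
      have w5 : ‖y.fst - c • p.fst‖ ≤ 5 * ε₁ + ε / 8 := by
        have e1 : y.fst - c • p.fst = (y.fst - (((N : ℝ) : 𝕜) * c₁) • x) +
            (((N : ℝ) : 𝕜) * c₁ - c * ((a : ℝ) : 𝕜)) • x := by
          rw [sub_smul, ← hxp, smul_smul]; abel
        rw [e1]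
        refine (norm_add_le _ _).trans ?_
        rw [norm_smul, hx1, mul_one]
        linarith
      refine (norm_le_add (y - c • p)).trans_lt ?_
      have e1 : (y - c • p).fst = y.fst - c • p.fst := rfl
      have e2 : (y - c • p).snd = y.snd - c • p.snd := rfl
      rw [e1, e2]
      linarith

end Sum

end Pool.Agent.H34.BPB
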