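import Mathlib
import Pool.Agent.H34.BPB.General

/-!
# Real universal domains of dimension at most two are strictly convex
-/

set_option autoImplicit false

open Filter Topology

namespace Pool.Agent.H34.BPB

universe u

/-- The pair `(X, ℝ)` with the BPBp-ASE and `dim X ≤ 2`: `X` is strictly convex. -/
theorem strict_of_two {X : Type u} [NormedAddCommGroup X] [NormedSpace ℝ X]
    [FiniteDimensional ℝ X] (hdim : Module.finrank ℝ X ≤ 2) (h : BPBpASE ℝ X ℝ) (x y : X)
    (hx : ‖x‖ = 1) (hy : ‖y‖ = 1) (hxy : ‖x + y‖ = 2) : x = y := by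
  by_contra hne
  have hxy0 : x + y ≠ 0 := by
    intro h0
    rw [h0, norm_zero] at hxy
    norm_num at hxy
  obtain ⟨g, hg, hgxy⟩ := exists_dual_vector ℝ (x + y) (norm_ne_zero_iff.2 hxy0)
  have hgle : ∀ z, |g z| ≤ ‖z‖ := by
    intro z
    have := g.le_opNorm z
    rwa [hg, one_mul, Real.norm_eq_abs] at this
  have hgxy' : g x + g y = 2 := by
    rw [← map_add, hgxy, hxy]; rfl
  have hgx : g x = 1 := by
    have h1 := (le_abs_self _).trans (hgle x)
    have h2 := (le_abs_self _).trans (hgle y)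
    linarith
  have hgy : g y = 1 := by linarith
  -- independence
  have hli : LinearIndependent ℝ ![x, y] := by
    rw [LinearIndependent.pair_iff]
    intro s t hst
    have h1 := congrArg g hst
    rw [map_add, map_smul, map_smul, hgx, hgy, map_zero, smul_eq_mul, smul_eq_mul, mul_one,
      mul_one] at h1
    have h2 : t = -s := by linarith
    rw [h2, neg_smul, ← sub_eq_add_neg, ← smul_sub] at hst
    rcases smul_eq_zero.1 hst with h3 | h3
    · exact ⟨h3, by rw [h2, h3, neg_zero]⟩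
    · exact absurd (sub_eq_zero.1 h3) hne
  have hcard : Fintype.card (Fin 2) = Module.finrank ℝ X := by
    have h1 := hli.fintype_card_le_finrank
    rw [Fintype.card_fin] at h1 ⊢
    omega
  let b := basisOfLinearIndependentOfCardEqFinrank hli hcard
  have hb : ⇑b = ![x, y] := coe_basisOfLinearIndependentOfCardEqFinrank hli hcard
  have hb0 : b 0 = x := by rw [hb]; rfl
  have hb1 : b 1 = y := by rw [hb]; rfl
  have hrepr : ∀ z, z = b.coord 0 z • x + b.coord 1 z • y := by
    intro z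
    have := b.sum_repr z
    rw [Fin.sum_univ_two, hb0, hb1] at this
    exact this.symm
  let c0 : X →L[ℝ] ℝ := LinearMap.toContinuousLinearMap (b.coord 0)
  let c1 : X →L[ℝ] ℝ := LinearMap.toContinuousLinearMap (b.coord 1)
  have hc0 : ∀ z, c0 z = b.coord 0 z := fun z => rfl
  have hc1 : ∀ z, c1 z = b.coord 1 z := fun z => rfl
  set m : X := (1 / 2 : ℝ) • (x + y) with hm
  have hm1 : ‖m‖ = 1 := by
    rw [hm, norm_smul, hxy]; norm_num
  have hgm : g m = 1 := by
    rw [hm, map_smul, map_add, hgx, hgy, smul_eq_mul]; norm_num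
  have hcx0 : b.coord 0 x = 1 := by
    rw [← hb0]; simp
  have hcx1 : b.coord 1 x = 0 := by
    rw [← hb0]; simp
  have hcy0 : b.coord 0 y = 0 := by
    rw [← hb1]; simp
  have hcy1 : b.coord 1 y = 1 := by
    rw [← hb1]; simp
  have hm0 : c0 m = 1 / 2 := by
    rw [hm, map_smul, map_add, hc0, hc0, hcx0, hcy0, smul_eq_mul]; norm_num
  have hm1' : c1 m = 1 / 2 := by
    rw [hm, map_smul, map_add, hc1, hc1, hcx1, hcy1, smul_eq_mul]; norm_num
  set K : ℝ := ‖c0‖ + ‖c1‖ + 1 with hK
  have hK0 : 0 < K := by positivity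
  obtain ⟨η, hη, _, hall⟩ := h (1 / (2 * K)) (by positivity)
  obtain ⟨S, x₀, hASE, hx₀, hS, hSx₀, _, hmx₀⟩ := hall g hg m hm1 (by
    rw [hgm, norm_one]; linarith)
  have hpos : ∀ c : X →L[ℝ] ℝ, ‖c‖ ≤ K → c m = 1 / 2 → 0 < c x₀ := by
    intro c hcK hcm
    have h1 := c.le_opNorm (m - x₀)
    have h2 : ‖c‖ * ‖m - x₀‖ ≤ K * ‖m - x₀‖ := mul_le_mul_of_nonneg_right hcK (norm_nonneg _)
    have h3 : K * ‖m - x₀‖ < K * (1 / (2 * K)) := mul_lt_mul_of_pos_left hmx₀ hK0
    have h4 : K * (1 / (2 * K)) = 1 / 2 := by field_simp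
    rw [map_sub, hcm, Real.norm_eq_abs] at h1
    have h5 := le_abs_self (1 / 2 - c x₀)
    linarith
  have hs := hpos c0 (by rw [hK]; linarith [norm_nonneg c1]) hm0
  have ht := hpos c1 (by rw [hK]; linarith [norm_nonneg c0]) hm1'
  set s : ℝ := c0 x₀ with hsdef
  set t : ℝ := c1 x₀ with htdef
  have hx₀' : x₀ = s • x + t • y := hrepr x₀
  have hst1 : s + t ≤ 1 := by
    have h1 := (le_abs_self _).trans (hgle x₀)
    rw [hx₀] at h1
    have h2 : g x₀ = s + t := by
      rw [hx₀', map_add, map_smul, map_smul, hgx, hgy, smul_eq_mul, smul_eq_mul, mul_one, mul_one]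
    linarith
  have hSle : ∀ z, |S z| ≤ ‖z‖ := by
    intro z
    have := S.le_opNorm z
    rwa [hS, one_mul, Real.norm_eq_abs] at this
  have hSx := hSle x
  have hSy := hSle y
  rw [hx] at hSx
  rw [hy] at hSy
  have hSval : |s * S x + t * S y| = 1 := by
    have h1 : S x₀ = s * S x + t * S y := by
      rw [hx₀', map_add, map_smul, map_smul, smul_eq_mul, smul_eq_mul]
    rw [← h1, ← Real.norm_eq_abs]; exact hSx₀
  have hSabs : |S x| = 1 ∧ |S y| = 1 := by
    have h1 := abs_add_le (s * S x) (t * S y)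
    rw [hSval, abs_mul, abs_mul, abs_of_pos hs, abs_of_pos ht] at h1
    have h2 := mul_le_mul_of_nonneg_left hSx hs.le
    have h3 := mul_le_mul_of_nonneg_left hSy ht.le
    constructor
    · apply le_antisymm hSx
      by_contra hcon
      push Not at hcon
      have := mul_lt_mul_of_pos_left hcon hs
      linarith
    · apply le_antisymm hSy
      by_contra hcon
      push Not at hcon
      have := mul_lt_mul_of_pos_left hcon ht
      linarith
  obtain ⟨z₀, _, hz⟩ := hASE
  have hpt : ∀ z : X, ‖z‖ = 1 → |S z| = 1 → z = z₀ ∨ z = -z₀ := by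
    intro z hz1 hSz
    obtain ⟨σ, c, _, hc, hlim⟩ := hz (fun _ => z) (fun _ => hz1.le) (by
      rw [hS, Real.norm_eq_abs, hSz]; exact tendsto_const_nhds)
    have h1 : z = c • z₀ := tendsto_nhds_unique tendsto_const_nhds hlim
    rw [Real.norm_eq_abs] at hc
    rcases (abs_eq zero_le_one).1 hc with h2 | h2
    · left; rw [h1, h2, one_smul]
    · right; rw [h1, h2, neg_smul, one_smul]
  have hxx := hpt x hx hSabs.1
  have hyy := hpt y hy hSabs.2
  rcases hxx with h1 | h1 <;> rcases hyy with h2 | h2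
  · exact hne (h1.trans h2.symm)
  · apply hxy0; rw [h1, h2]; abel
  · apply hxy0; rw [h1, h2]; abel
  · exact hne (h1.trans h2.symm)

/-- A finite-dimensional strictly convex space is uniformly convex. -/
theorem uc_of_strict {X : Type u} [NormedAddCommGroup X] [NormedSpace ℝ X]
    [FiniteDimensional ℝ X]
    (h : ∀ x y : X, ‖x‖ = 1 → ‖y‖ = 1 → ‖x + y‖ = 2 → x = y) (ε : ℝ) (hε : 0 < ε) :
    ∃ δ : ℝ, 0 < δ ∧ δ < 1 ∧ ∀ x₁ x₂ : X, ‖x₁‖ = 1 → ‖x₂‖ = 1 →
      1 - δ < ‖x₁ + x₂‖ / 2 → ‖x₁ - x₂‖ < ε := by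
  have hprop : ProperSpace X := FiniteDimensional.proper_real X
  by_contra hcon
  push Not at hcon
  have hδ : ∀ n : ℕ, 0 < 1 / ((n : ℝ) + 2) ∧ 1 / ((n : ℝ) + 2) < 1 := by
    intro n
    have hn : (0 : ℝ) ≤ n := n.cast_nonneg
    refine ⟨by positivity, ?_⟩
    rw [div_lt_one (by positivity)]
    linarith
  choose x y hx hy hxy hsep using fun n : ℕ => hcon _ (hδ n).1 (hδ n).2
  obtain ⟨⟨a, b⟩, _, σ, hσ, hlim⟩ :=
    ((isCompact_closedBall (0 : X) 1).prod (isCompact_closedBall (0 : X) 1)).tendsto_subseq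
      (x := fun n => (x n, y n)) (fun n => ⟨by simp [hx n], by simp [hy n]⟩)
  have hxl : Tendsto (fun n => x (σ n)) atTop (𝓝 a) := (continuous_fst.tendsto (a, b)).comp hlim
  have hyl : Tendsto (fun n => y (σ n)) atTop (𝓝 b) := (continuous_snd.tendsto (a, b)).comp hlim
  have ha : ‖a‖ = 1 := by
    have h1 := hxl.norm
    simp only [hx] at h1
    exact tendsto_nhds_unique h1 tendsto_const_nhds
  have hb : ‖b‖ = 1 := by
    have h1 := hyl.norm
    simp only [hy] at h1
    exact tendsto_nhds_unique h1 tendsto_const_nhds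
  have hab : ‖a + b‖ = 2 := by
    have h1 := ((hxl.add hyl).norm).div_const 2
    have h2 : Tendsto (fun n : ℕ => 1 - 1 / ((n : ℝ) + 2)) atTop (𝓝 1) := by
      have h3 : Tendsto (fun n : ℕ => 1 / ((n : ℝ) + 2)) atTop (𝓝 0) := by
        refine squeeze_zero (fun n => by positivity) (fun n => ?_)
          tendsto_one_div_add_atTop_nhds_zero_nat
        apply one_div_le_one_div_of_le
        · positivity
        · linarith
      simpa using h3.const_sub 1
    have h4 : Tendsto (fun n => ‖x (σ n) + y (σ n)‖ / 2) atTop (𝓝 1) := by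
      refine tendsto_of_tendsto_of_tendsto_of_le_of_le (h2.comp hσ.tendsto_atTop)
        tendsto_const_nhds (fun n => (hxy (σ n)).le) (fun n => ?_)
      have := norm_add_le (x (σ n)) (y (σ n))
      rw [hx, hy] at this
      simp only
      linarith
    have h5 := tendsto_nhds_unique h1 h4
    linarith
  have h6 : ‖a - b‖ = 0 := by rw [h a b ha hb hab, sub_self, norm_zero]
  have h7 : ε ≤ ‖a - b‖ := ge_of_tendsto' ((hxl.sub hyl).norm) (fun n => hsep (σ n))
  linarith

end Pool.Agent.H34.BPB
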